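import Pool.Agent.H620R2.GaugeX.Defs
import Pool.Agent.H620R2.Gauge2.Base
import Pool.Agent.H620R2.GaugeR.Seq
import Pool.Agent.H620R2.Gauge.A1

/-!
# The objects of the proof
-/

namespace Pool.Agent.H620R2.Gauge

open Pool.Agent.NPC

/-- Half the length of the witnesses of the question number `e` on inputs of length `n`; `2 ^` the
value of `p e` bounds the number of oracle strings on which the answer depends. -/
def hl (p : ℕ → Polynomial ℕ) (e n : ℕ) : ℕ := (p e).eval n + 2 * n + e + 2

end Pool.Agent.H620R2.Gauge
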