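import Pool.Agent.H620R2.GaugeX.Base

/-!
# Task X7: `ZPP` is contained in `NP` (helper938)
-/

namespace Pool.Agent.H620R2.Gauge

open Pool.Agent.NPC Pool.Agent.H622R2 Finset

/-- X7 -/
theorem IsZPP.isNP {A : Oracle} {L : Set (List Bool)} (h : IsZPP A L) : IsNP A L := by
  obtain ⟨V, p, hV, hx⟩ := h
  -- the verifier checks the length
  have hlen : Poly (fun q : List Bool × List Bool × List Bool =>
      decide ((unpair q.1).1.length = p.eval (unpair q.1).2.length)) := by
    have h1 : Poly (fun q : List Bool × List Bool × List Bool => unpair q.1) :=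
      poly_unpair.comp (Poly.fst Poly.id)
    have hn : UPoly (fun q : List Bool × List Bool × List Bool => (unpair q.1).1.length) :=
      UPoly.length (Poly.fst h1)
    have hm : UPoly (fun q : List Bool × List Bool × List Bool =>
        p.eval (unpair q.1).2.length) := (UPoly.length (Poly.snd h1)).eval p
    exact Poly.decide_eq hn.toPoly hm.toPoly
  have hψ : Poly (fun q : List Bool × List Bool × List Bool =>
      if (unpair q.1).1.length = p.eval (unpair q.1).2.length then q.2.1 else []) :=
    Poly.ite hlen (Poly.fst (Poly.snd Poly.id)) (NPC.Poly.const _)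
  have hV' : IsFP A (fun y => if (unpair y).1.length = p.eval (unpair y).2.length then V y
      else []) := IsFP.seq (F := V) (G := V) (φ := fun q => q.1) hV hV (Poly.fst Poly.id) hψ
  refine ⟨_, p, hV', fun x => ?_⟩
  obtain ⟨h1, h2⟩ := hx x
  constructor
  · intro hxL
    -- some string gives an answer
    have hpos : 0 < Nat.card {w : Fin (p.eval x.length) → Bool //
        V (pairBits (List.ofFn w) x) = [true] ∨ V (pairBits (List.ofFn w) x) = [false]} := by
      rw [Nat.pos_iff_ne_zero]
      intro h0
      rw [h0] at h2
      norm_num at h2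
    obtain ⟨⟨w, hw⟩⟩ := (Nat.card_pos_iff.1 hpos).1
    refine ⟨List.ofFn w, by simp, ?_⟩
    have hl : (List.ofFn w).length = p.eval x.length := by simp
    show (if (unpair (pairBits (List.ofFn w) x)).1.length =
      p.eval (unpair (pairBits (List.ofFn w) x)).2.length then V (pairBits (List.ofFn w) x)
      else []) = [true]
    rw [unpair_pairBits, if_pos hl]
    rcases hw with hw | hw
    · exact hw
    · exact absurd hxL ((h1 _ hl).2 hw)
  · rintro ⟨w, hw1, hw2⟩
    have hw3 : (if (unpair (pairBits w x)).1.length = p.eval (unpair (pairBits w x)).2.length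
      then V (pairBits w x) else []) = [true] := hw2
    rw [unpair_pairBits] at hw3
    split_ifs at hw3 with hl
    exact (h1 w hl).1 hw3

end Pool.Agent.H620R2.Gauge
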