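import Pool.Agent.H620R2.GaugeX.Base
import Pool.Agent.H620R2.Gauge.A2
import Pool.Agent.H620R2.Gauge.C

/-!
# X10: bounded error algorithm from the codes
-/

namespace Pool.Agent.H620R2.Gauge

open Pool.Agent.NPC Finset

namespace X10

theorem isFP_code (R : ℕ → Polynomial ℕ) (A : Oracle) (e : ℕ) :
    IsFP A (fun y => [A (code R e (true :: y))]) := by
  have hQ : Poly (fun y : List Bool => [code R e (true :: y)]) :=
    NPC.Poly.cons ((CC.poly_code R e).comp (NPC.Poly.cons (NPC.Poly.const true) NPC.Poly.id))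
      (NPC.Poly.const [])
  have hH : Poly (fun z : List Bool × List Bool => z.2) := Poly.snd Poly.id
  exact IsFP.tt hQ hH

theorem card_split (m : ℕ) (P : (Fin m → Bool) → Prop) :
    Nat.card {w : Fin m → Bool // P w} + Nat.card {w : Fin m → Bool // ¬ P w} = 2 ^ m := by
  classical
  rw [Nat.card_eq_fintype_card, Nat.card_eq_fintype_card, Fintype.card_subtype_compl]
  have h1 : Fintype.card (Fin m → Bool) = 2 ^ m := by simp
  have h2 := Fintype.card_subtype_le (fun w : Fin m → Bool => P w)
  omega

end X10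

/-- X10 -/
theorem isBPP_of_code (R p : ℕ → Polynomial ℕ) (A : Oracle) (e : ℕ) (L : Set (List Bool))
    (h : ∀ x : List Bool, Nat.card {w : Fin (2 * hl p e x.length) → Bool //
      ¬ (A (code R e (true :: pairBits (List.ofFn w) x)) = true ↔ x ∈ L)} ≤
        2 ^ hl p e x.length) :
    IsBPP A L := by
  refine ⟨fun y => [A (code R e (true :: y))],
    Polynomial.C 2 * (p e + Polynomial.C 2 * Polynomial.X + Polynomial.C (e + 2)),
    X10.isFP_code R A e, fun x => ?_⟩
  have hm : (Polynomial.C 2 * (p e + Polynomial.C 2 * Polynomial.X +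
      Polynomial.C (e + 2))).eval x.length = 2 * hl p e x.length := by
    simp only [Polynomial.eval_mul, Polynomial.eval_add, Polynomial.eval_C, Polynomial.eval_X, hl]
    ring
  rw [hm]
  have hx := h x
  set H := hl p e x.length with hH
  have hle : x.length + 2 ≤ H := by
    rw [hH]; unfold hl; omega
  have hpow : ((2:ℝ) ^ H) / 2 ^ (2 * H) ≤ 1 / 2 ^ (x.length + 2) := by
    have e1 : ((2:ℝ) ^ H) / 2 ^ (2 * H) = 1 / 2 ^ H := by
      rw [two_mul, pow_add]
      have : (2:ℝ) ^ H ≠ 0 := by positivity
      field_simp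
    rw [e1]
    apply one_div_le_one_div_of_le (by positivity)
    exact pow_le_pow_right₀ (by norm_num) hle
  have hpos : (0:ℝ) < 2 ^ (2 * H) := by positivity
  have hacc : accPr (fun y => [A (code R e (true :: y))]) (2 * H) x =
      (Nat.card {w : Fin (2 * H) → Bool //
        A (code R e (true :: pairBits (List.ofFn w) x)) = true} : ℝ) / 2 ^ (2 * H) := by
    unfold accPr
    simp only [List.cons.injEq, and_true]
  rw [hacc]
  refine ⟨fun hL => ?_, fun hL => ?_⟩
  · have h1 := X10.card_split (2 * H)
      (fun w => A (code R e (true :: pairBits (List.ofFn w) x)) = true)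
    have h2 : Nat.card {w : Fin (2 * H) → Bool //
        ¬ A (code R e (true :: pairBits (List.ofFn w) x)) = true} ≤ 2 ^ H := by
      simpa only [hL, iff_true] using hx
    have h3 : (2:ℝ) ^ (2 * H) - 2 ^ H ≤ (Nat.card {w : Fin (2 * H) → Bool //
        A (code R e (true :: pairBits (List.ofFn w) x)) = true} : ℝ) := by
      have h4 : 2 ^ (2 * H) ≤ Nat.card {w : Fin (2 * H) → Bool //
        A (code R e (true :: pairBits (List.ofFn w) x)) = true} + 2 ^ H := by omega
      have h5 : ((2 ^ (2 * H) : ℕ) : ℝ) ≤ ((Nat.card {w : Fin (2 * H) → Bool //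
        A (code R e (true :: pairBits (List.ofFn w) x)) = true} + 2 ^ H : ℕ) : ℝ) := by
        exact_mod_cast h4
      push_cast at h5
      linarith
    calc 1 - 1 / 2 ^ (x.length + 2) ≤ 1 - (2:ℝ) ^ H / 2 ^ (2 * H) := by linarith
      _ = ((2:ℝ) ^ (2 * H) - 2 ^ H) / 2 ^ (2 * H) := by
          rw [sub_div, div_self hpos.ne']
      _ ≤ _ := by
          apply div_le_div_of_nonneg_right h3 hpos.le
  · have h2 : Nat.card {w : Fin (2 * H) → Bool //
        A (code R e (true :: pairBits (List.ofFn w) x)) = true} ≤ 2 ^ H := by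
      simpa only [hL, iff_false, not_not] using hx
    have h3 : (Nat.card {w : Fin (2 * H) → Bool //
        A (code R e (true :: pairBits (List.ofFn w) x)) = true} : ℝ) ≤ 2 ^ H := by
      exact_mod_cast h2
    exact (div_le_div_of_nonneg_right h3 hpos.le).trans hpow

end Pool.Agent.H620R2.Gauge
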