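import Pool.Agent.H620R2.GaugeX.Base

/-!
# Exponentially small error gives advice (task X11, helper655)
-/

namespace Pool.Agent.H620R2.Gauge

open Pool.Agent.NPC Finset

namespace X11

/-- the number of random strings with a wrong answer on one input -/
theorem bad_card {V : List Bool → List Bool} {m n : ℕ} {L : Set (List Bool)} {x : List Bool}
    (h1 : x ∈ L → 1 - 1 / 2 ^ (n + 2) ≤ accPr V m x) (h2 : x ∉ L → accPr V m x ≤ 1 / 2 ^ (n + 2))
    (B : Finset (Fin m → Bool))
    (hB : ∀ w, w ∈ B ↔ ¬ (V (pairBits (List.ofFn w) x) = [true] ↔ x ∈ L)) :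
    B.card * 2 ^ (n + 2) ≤ 2 ^ m := by
  classical
  set S : Finset (Fin m → Bool) :=
    Finset.univ.filter (fun w => V (pairBits (List.ofFn w) x) = [true]) with hS
  have hacc : accPr V m x = (S.card : ℝ) / 2 ^ m := by
    unfold accPr
    rw [Nat.card_eq_fintype_card, Fintype.card_subtype]
  have h0 : (0 : ℝ) < 2 ^ m := by positivity
  have h0' : (0 : ℝ) < 2 ^ (n + 2) := by positivity
  rw [hacc] at h1 h2
  have key : (B.card : ℝ) * 2 ^ (n + 2) ≤ 2 ^ m := by
    by_cases hx : x ∈ L
    · have hBS : B = Sᶜ := by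
        ext w
        rw [hB, Finset.mem_compl, hS, Finset.mem_filter]
        simp [hx]
      have h3 : (B.card : ℝ) = 2 ^ m - S.card := by
        have h4 := Finset.card_compl_add_card S
        have h5 : Fintype.card (Fin m → Bool) = 2 ^ m := by simp
        rw [h5, ← hBS] at h4
        have h6 : ((B.card + S.card : ℕ) : ℝ) = ((2 ^ m : ℕ) : ℝ) := by rw [h4]
        push_cast at h6
        linarith
      have h4 := h1 hx
      rw [le_div_iff₀ h0, sub_mul, one_mul] at h4
      have h5 : (B.card : ℝ) ≤ 1 / 2 ^ (n + 2) * 2 ^ m := by rw [h3]; linarith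
      calc (B.card : ℝ) * 2 ^ (n + 2) ≤ (1 / 2 ^ (n + 2) * 2 ^ m) * 2 ^ (n + 2) :=
            mul_le_mul_of_nonneg_right h5 h0'.le
        _ = 2 ^ m := by field_simp
    · have hBS : B = S := by
        ext w
        rw [hB, hS, Finset.mem_filter]
        simp [hx]
      have h4 := h2 hx
      rw [div_le_div_iff₀ h0 h0', one_mul] at h4
      rw [hBS]
      exact h4
  exact_mod_cast key

/-- one random string is right for all inputs of length `n` -/
theorem exists_good {V : List Bool → List Bool} {m n : ℕ} {L : Set (List Bool)}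
    (h : ∀ x : List Bool, x.length = n →
      (x ∈ L → 1 - 1 / 2 ^ (n + 2) ≤ accPr V m x) ∧
      (x ∉ L → accPr V m x ≤ 1 / 2 ^ (n + 2))) :
    ∃ w : List Bool, w.length = m ∧
      ∀ x : List Bool, x.length = n → (x ∈ L ↔ V (pairBits w x) = [true]) := by
  classical
  set B : (Fin n → Bool) → Finset (Fin m → Bool) := fun x =>
    Finset.univ.filter (fun w =>
      ¬ (V (pairBits (List.ofFn w) (List.ofFn x)) = [true] ↔ List.ofFn x ∈ L)) with hBd
  have hB : ∀ x, (B x).card * 2 ^ (n + 2) ≤ 2 ^ m := fun x =>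
    bad_card (h (List.ofFn x) (by simp)).1 (h (List.ofFn x) (by simp)).2 (B x) (fun w => by
      rw [hBd]; simp)
  have hex : ∃ w : Fin m → Bool, w ∉ Finset.univ.biUnion B := by
    by_contra hcon
    push Not at hcon
    have h1 : (Finset.univ : Finset (Fin m → Bool)) ⊆ Finset.univ.biUnion B :=
      fun w _ => hcon w
    have h2 := (Finset.card_le_card h1).trans Finset.card_biUnion_le
    have h3 : (Finset.univ : Finset (Fin m → Bool)).card = 2 ^ m := by simp
    rw [h3] at h2
    have h4 : 2 ^ m * 2 ^ (n + 2) ≤ 2 ^ n * 2 ^ m := by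
      calc 2 ^ m * 2 ^ (n + 2) ≤ (∑ x, (B x).card) * 2 ^ (n + 2) := Nat.mul_le_mul_right _ h2
        _ = ∑ x, (B x).card * 2 ^ (n + 2) := Finset.sum_mul _ _ _
        _ ≤ ∑ _x : Fin n → Bool, 2 ^ m := Finset.sum_le_sum fun x _ => hB x
        _ = 2 ^ n * 2 ^ m := by simp
    have h5 : 0 < 2 ^ m * 2 ^ n := by positivity
    have h6 : 2 ^ m * 2 ^ (n + 2) = 4 * (2 ^ m * 2 ^ n) := by ring
    have h7 : 2 ^ n * 2 ^ m = 2 ^ m * 2 ^ n := by ring
    omega
  obtain ⟨w, hw⟩ := hex
  refine ⟨List.ofFn w, by simp, fun x hx => ?_⟩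
  subst hx
  have h1 : List.ofFn (fun i : Fin x.length => x[i]) = x := List.ofFn_getElem
  have h2 : w ∉ B (fun i => x[i]) := fun h3 =>
    hw (Finset.mem_biUnion.2 ⟨_, Finset.mem_univ _, h3⟩)
  rw [hBd] at h2
  simp only [Finset.mem_filter, Finset.mem_univ, true_and, not_not] at h2
  rw [h1] at h2
  exact h2.symm

end X11

open X11 in
/-- exponentially small error gives advice -/
theorem IsBPP.withAdvice {A : Oracle} {L : Set (List Bool)} (h : IsBPP A L) :
    WithAdvice (IsP A) L := by
  obtain ⟨V, p, hV, hL⟩ := h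
  have hex : ∀ n : ℕ, ∃ w : List Bool, w.length = p.eval n ∧
      ∀ x : List Bool, x.length = n → (x ∈ L ↔ V (pairBits w x) = [true]) := by
    intro n
    refine exists_good fun x hx => ?_
    have := hL x
    rwa [hx] at this
  choose w hw1 hw2 using hex
  refine ⟨{y | V (pairBits (unpair y).2 (unpair y).1) = [true]}, w, p,
    ⟨fun y => V (pairBits (unpair y).2 (unpair y).1), ?_, fun y => Iff.rfl⟩,
    fun n => (hw1 n).le, fun x => ?_⟩
  · exact IsFP.comp hV (IsFP.of_poly (H622R2.poly_pairBits (Poly.snd poly_unpair)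
      (Poly.fst poly_unpair)))
  · rw [Set.mem_ofPred_eq, unpair_pairBits]
    exact hw2 x.length x rfl

end Pool.Agent.H620R2.Gauge
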