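import Pool.Agent.H620R2.GaugeX.Base

/-!
# `NP` relative to an oracle is contained in nondeterministic exponential time
-/

namespace Pool.Agent.H620R2.Gauge

open Pool.Agent.NPC Finset

namespace X12

/-- the certificate proper -/
def cw (y : List Bool) : List Bool := (unpair (unpair y).1).1

/-- the input -/
def cx (y : List Bool) : List Bool := (unpair y).2

theorem cw_pair (w v x : List Bool) : cw (pairBits (pairBits w v) x) = w := by
  unfold cw
  rw [unpair_pairBits, unpair_pairBits]

theorem cw_pair' (w x : List Bool) : cw (pairBits w x) = (unpair w).1 := by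
  unfold cw
  rw [unpair_pairBits]

theorem cx_pair (w x : List Bool) : cx (pairBits w x) = x := by
  unfold cx
  rw [unpair_pairBits]

theorem poly_cw : Poly cw :=
  Poly.fst (Poly.comp poly_unpair (Poly.fst poly_unpair))

theorem poly_cx : Poly cx := Poly.snd poly_unpair

/-- the new algorithm -/
noncomputable def newV (V : List Bool → List Bool) (p : Polynomial ℕ) (y : List Bool) :
    List Bool :=
  if (cw y).length ≤ p.eval (cx y).length then V (pairBits (cw y) (cx y)) else []

theorem isFP_newV {A : Oracle} {V : List Bool → List Bool} (hV : IsFP A V) (p : Polynomial ℕ) :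
    IsFP A (newV V p) := by
  have h1 : Poly (fun y : List Bool => pairBits (cw y) (cx y)) :=
    H622R2.poly_pairBits poly_cw poly_cx
  have h2 : IsFP A (fun y => V (pairBits (cw y) (cx y))) := IsFP.comp hV (IsFP.of_poly h1)
  have h3 : Poly (fun t : List Bool × List Bool × List Bool => (cw t.1).length) :=
    Poly.length (poly_cw.comp (Poly.fst Poly.id))
  have h4 : Poly (fun t : List Bool × List Bool × List Bool => p.eval (cx t.1).length) :=
    (UPoly.eval (UPoly.length (poly_cx.comp (Poly.fst Poly.id))) p).toPoly
  exact IsFP.seq (φ := fun t => t.1)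
    (ψ := fun t => if (cw t.1).length ≤ p.eval (cx t.1).length then t.2.1 else [])
    h2 h2 (Poly.fst Poly.id)
    (Poly.ite (Poly.decide_le h3 h4) (Poly.fst (Poly.snd Poly.id)) (NPC.Poly.const []))

theorem le_two_pow (m : ℕ) : 2 * m + 1 ≤ 2 ^ (m + 2) := by
  have : m < 2 ^ m := m.lt_two_pow_self
  rw [pow_add]
  omega

end X12

open X12 in
/-- X12 -/
theorem IsNP.isNEXP {A : Oracle} {L : Set (List Bool)} (h : IsNP A L) : IsNEXP A L := by
  obtain ⟨V, p, hV, hL⟩ := h
  refine ⟨newV V p, p + 2, isFP_newV hV p, fun x => ?_⟩
  rw [hL x]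
  have hp : (p + 2).eval x.length = p.eval x.length + 2 := by simp
  rw [hp]
  have hb := le_two_pow (p.eval x.length)
  constructor
  · rintro ⟨w, hw, hV1⟩
    refine ⟨pairBits w (List.replicate (2 ^ (p.eval x.length + 2) - (2 * w.length + 1)) false),
      ?_, ?_⟩
    · rw [length_pairBits, List.length_replicate]
      omega
    · unfold newV
      rw [cw_pair, cx_pair, if_pos hw]
      exact hV1
  · rintro ⟨w', -, hV1⟩
    unfold newV at hV1
    split_ifs at hV1 with h1
    · rw [cx_pair] at h1 hV1
      exact ⟨_, h1, hV1⟩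

end Pool.Agent.H620R2.Gauge
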