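import Pool.Agent.H620R2.GaugeX.Base

/-!
# Task X2: the order of the questions (helper989)
-/

namespace Pool.Agent.H620R2.Gauge

open Pool.Agent.NPC Finset

theorem X2_geom (N : ℕ) : ∑ e ∈ range N, (1 / 2 : ℝ) ^ (e + 1) ≤ 1 := by
  have h : ∑ e ∈ range N, (1 / 2 : ℝ) ^ (e + 1) = 1 - (1 / 2) ^ N := by
    induction N with
    | zero => simp
    | succ N ih => rw [Finset.sum_range_succ, ih, pow_succ]; ring
  rw [h]
  have : (0 : ℝ) ≤ (1 / 2) ^ N := by positivity
  linarith

theorem X2_card (X : Finset (List Bool)) (n : ℕ) :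
    (X.filter (fun x => x.length = n)).card ≤ 2 ^ n := by
  have h : X.filter (fun x => x.length = n) ⊆
      (univ : Finset (List.Vector Bool n)).image (fun v => v.1) := by
    intro x hx
    rw [Finset.mem_filter] at hx
    rw [Finset.mem_image]
    exact ⟨⟨x, hx.2⟩, Finset.mem_univ _, rfl⟩
  refine (Finset.card_le_card h).trans (Finset.card_image_le.trans ?_)
  rw [Finset.card_univ, card_vector, Fintype.card_bool]

theorem X2_sumE (E : Finset ℕ) : ∑ e ∈ E, (1 / 2 : ℝ) ^ (e + 1) ≤ 1 := by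
  obtain ⟨N, hN⟩ : ∃ N, E ⊆ range N :=
    ⟨E.sup id + 1, fun e he => by
      rw [Finset.mem_range]
      exact Nat.lt_succ_of_le (Finset.le_sup (f := id) he)⟩
  exact (Finset.sum_le_sum_of_subset_of_nonneg hN fun _ _ _ => by positivity).trans (X2_geom N)

theorem X2_sumX (X : Finset (List Bool)) : ∑ x ∈ X, (1 / 2 : ℝ) ^ (2 * x.length + 1) ≤ 1 := by
  have h1 : ∑ x ∈ X, (1 / 2 : ℝ) ^ (2 * x.length + 1) =
      ∑ n ∈ X.image List.length, ∑ x ∈ X.filter (fun x => x.length = n),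
        (1 / 2 : ℝ) ^ (2 * x.length + 1) := by
    rw [Finset.sum_fiberwise_of_maps_to fun x hx => Finset.mem_image_of_mem _ hx]
  rw [h1]
  refine le_trans (Finset.sum_le_sum fun n _ => ?_) (X2_sumE (X.image List.length))
  have h2 : ∑ x ∈ X.filter (fun x => x.length = n), (1 / 2 : ℝ) ^ (2 * x.length + 1) =
      ((X.filter (fun x => x.length = n)).card : ℝ) * (1 / 2) ^ (2 * n + 1) := by
    rw [Finset.sum_congr rfl fun x hx => by rw [(Finset.mem_filter.1 hx).2], Finset.sum_const,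
      nsmul_eq_mul]
  rw [h2]
  have h3 : ((X.filter (fun x => x.length = n)).card : ℝ) ≤ 2 ^ n := by
    exact_mod_cast X2_card X n
  have h4 : (1 / 2 : ℝ) ^ (2 * n + 1) = (1 / 2) ^ n * (1 / 2) ^ (n + 1) := by
    rw [← pow_add]; congr 1; ring
  rw [h4, ← mul_assoc]
  have h5 : (2 : ℝ) ^ n * (1 / 2) ^ n = 1 := by
    rw [← mul_pow]; norm_num
  calc ((X.filter (fun x => x.length = n)).card : ℝ) * (1 / 2) ^ n * (1 / 2) ^ (n + 1)
      ≤ 2 ^ n * (1 / 2) ^ n * (1 / 2) ^ (n + 1) := by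
        apply mul_le_mul_of_nonneg_right _ (by positivity)
        exact mul_le_mul_of_nonneg_right h3 (by positivity)
    _ = (1 / 2) ^ (n + 1) := by rw [h5, one_mul]

theorem X2_weight (S : Finset (ℕ × List Bool)) :
    ∑ s ∈ S, (1 / 2 : ℝ) ^ (2 * s.2.length + s.1 + 2) ≤ 1 := by
  have h1 : S ⊆ (S.image Prod.fst) ×ˢ (S.image Prod.snd) := by
    intro s hs
    rw [Finset.mem_product]
    exact ⟨Finset.mem_image_of_mem _ hs, Finset.mem_image_of_mem _ hs⟩
  refine (Finset.sum_le_sum_of_subset_of_nonneg h1 fun _ _ _ => by positivity).trans ?_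
  rw [Finset.sum_product]
  have h2 : ∀ e ∈ S.image Prod.fst, ∑ x ∈ S.image Prod.snd,
      (1 / 2 : ℝ) ^ (2 * x.length + e + 2) ≤ (1 / 2) ^ (e + 1) := by
    intro e _
    have h3 : ∑ x ∈ S.image Prod.snd, (1 / 2 : ℝ) ^ (2 * x.length + e + 2) =
        (1 / 2) ^ (e + 1) * ∑ x ∈ S.image Prod.snd, (1 / 2 : ℝ) ^ (2 * x.length + 1) := by
      rw [Finset.mul_sum]
      refine Finset.sum_congr rfl fun x _ => ?_
      rw [← pow_add]; congr 1; ring
    rw [h3]
    have h4 := X2_sumX (S.image Prod.snd)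
    have h5 : (0 : ℝ) ≤ (1 / 2) ^ (e + 1) := by positivity
    nlinarith
  exact (Finset.sum_le_sum h2).trans (X2_sumE _)

theorem X2_bound (p : ℕ → Polynomial ℕ) (H : ℕ) (S : Finset (ℕ × List Bool))
    (hS : ∀ s ∈ S, hl p s.1 s.2.length ≤ H) :
    ∑ s ∈ S, 2 ^ (p s.1).eval s.2.length ≤ 2 ^ H := by
  have h1 : ∀ s ∈ S, (2 : ℝ) ^ (p s.1).eval s.2.length ≤
      2 ^ H * (1 / 2) ^ (2 * s.2.length + s.1 + 2) := by
    intro s hs
    have h2 := hS s hs
    unfold hl at h2
    have h3 : (2 : ℝ) ^ ((p s.1).eval s.2.length + (2 * s.2.length + s.1 + 2)) ≤ 2 ^ H :=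
      pow_le_pow_right₀ (by norm_num) (by omega)
    have h4 : (2 : ℝ) ^ (2 * s.2.length + s.1 + 2) * (1 / 2) ^ (2 * s.2.length + s.1 + 2) = 1 := by
      rw [← mul_pow]; norm_num
    calc (2 : ℝ) ^ (p s.1).eval s.2.length
        = 2 ^ ((p s.1).eval s.2.length + (2 * s.2.length + s.1 + 2)) *
            (1 / 2) ^ (2 * s.2.length + s.1 + 2) := by
          rw [pow_add, mul_assoc, h4, mul_one]
      _ ≤ _ := mul_le_mul_of_nonneg_right h3 (by positivity)
  have h5 : (∑ s ∈ S, (2 : ℝ) ^ (p s.1).eval s.2.length) ≤ 2 ^ H := by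
    refine (Finset.sum_le_sum h1).trans ?_
    rw [← Finset.mul_sum]
    have := X2_weight S
    have h6 : (0 : ℝ) ≤ 2 ^ H := by positivity
    nlinarith
  exact_mod_cast h5

theorem X2_finite (p : ℕ → Polynomial ℕ) (H : ℕ) :
    ∃ f : ℕ × List Bool → ℕ, (∀ t, f t < 2 ^ H) ∧
      ∀ s t, hl p s.1 s.2.length = H → hl p t.1 t.2.length = H → f s = f t → s = t := by
  have hcard : ∀ S : Finset (ℕ × List Bool), (∀ s ∈ S, hl p s.1 s.2.length = H) →
      S.card ≤ 2 ^ H := by
    intro S hS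
    refine le_trans ?_ (X2_bound p H S fun s hs => (hS s hs).le)
    rw [Finset.card_eq_sum_ones]
    exact Finset.sum_le_sum fun s _ => Nat.one_le_two_pow
  have hfin : {t : ℕ × List Bool | hl p t.1 t.2.length = H}.Finite := by
    by_contra hinf
    obtain ⟨S, hS, hS2⟩ := Set.Infinite.exists_subset_card_eq hinf (2 ^ H + 1)
    have := hcard S fun s hs => hS hs
    omega
  have hle := hcard hfin.toFinset fun s hs => by simpa using hs
  classical
  refine ⟨fun t => if h : t ∈ hfin.toFinset then (hfin.toFinset.equivFin ⟨t, h⟩ : ℕ) else 0,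
    fun t => ?_, fun s t hs ht hst => ?_⟩
  · dsimp only
    split_ifs with h
    · exact lt_of_lt_of_le (hfin.toFinset.equivFin ⟨t, h⟩).2 hle
    · positivity
  · have hs' : s ∈ hfin.toFinset := by rw [Set.Finite.mem_toFinset]; exact hs
    have ht' : t ∈ hfin.toFinset := by rw [Set.Finite.mem_toFinset]; exact ht
    dsimp only at hst
    rw [dif_pos hs', dif_pos ht'] at hst
    have h1 := hfin.toFinset.equivFin.injective (Fin.ext hst)
    exact congrArg Subtype.val h1

/-- X2 -/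
theorem exists_key (p : ℕ → Polynomial ℕ) : ∃ key : ℕ × List Bool → ℕ, Function.Injective key ∧
    ∀ (t : ℕ × List Bool) (S : Finset (ℕ × List Bool)), (∀ s ∈ S, key s ≤ key t) →
      ∑ s ∈ S, 2 ^ (p s.1).eval s.2.length ≤ 2 ^ hl p t.1 t.2.length := by
  choose f hf1 hf2 using X2_finite p
  have hlt : ∀ s t : ℕ × List Bool, hl p s.1 s.2.length < hl p t.1 t.2.length →
      2 ^ hl p s.1 s.2.length + f (hl p s.1 s.2.length) s <
        2 ^ hl p t.1 t.2.length + f (hl p t.1 t.2.length) t := by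
    intro s t h
    have h1 := hf1 (hl p s.1 s.2.length) s
    have h2 : 2 ^ (hl p s.1 s.2.length + 1) ≤ 2 ^ hl p t.1 t.2.length :=
      Nat.pow_le_pow_right (by norm_num) h
    rw [pow_succ] at h2
    omega
  refine ⟨fun t => 2 ^ hl p t.1 t.2.length + f (hl p t.1 t.2.length) t, ?_, ?_⟩
  · intro s t hst
    dsimp only at hst
    rcases lt_trichotomy (hl p s.1 s.2.length) (hl p t.1 t.2.length) with h | h | h
    · have := hlt s t h; omega
    · refine hf2 _ s t rfl h.symm ?_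
      rw [h] at hst ⊢
      omega
    · have := hlt t s h; omega
  · intro t S hS
    refine X2_bound p _ S fun s hs => ?_
    by_contra h
    have h1 := hlt t s (by omega)
    have h2 := hS s hs
    dsimp only at h2
    omega

end Pool.Agent.H620R2.Gauge
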