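import Pool.Agent.H620R2.GaugeX.Base
import Pool.Agent.H620R2.Gauge.C
import Pool.Agent.H620R2.GaugeX.X2

/-!
# Task X3: coding lemma for exponential time
-/

namespace Pool.Agent.H620R2.Gauge

open Pool.Agent.NPC Finset

namespace XE

variable (R p : ℕ → Polynomial ℕ) (key : ℕ × List Bool → ℕ)
  (U : ℕ → List Bool → Oracle → Finset (List Bool)) (Q : ℕ → List Bool → Oracle → Prop)
  (B : Oracle)

/-- the strings frozen after step `k` -/
def frz (k : ℕ) (s : Oracle × Set (List Bool)) : Set (List Bool) :=
  s.2 ∪ {u | ∃ t : ℕ × List Bool, key t = k ∧ u ∈ U t.1 t.2 s.1}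

open Classical in
/-- the oracle and the frozen strings before step `k` -/
noncomputable def st : ℕ → Oracle × Set (List Bool)
  | 0 => (fun y => if ∃ e z, y = code R e z then false else B y, ∅)
  | k + 1 => (fun y => decide ((st k).1 y = true ∨
      ((∃ (t : ℕ × List Bool) (w : List Bool), key t = k ∧ w.length = 2 * hl p t.1 t.2.length ∧
        y = code R t.1 (decide (Q t.1 t.2 (st k).1) :: pairBits w t.2)) ∧
        y ∉ frz key U k (st k))), frz key U k (st k))

theorem st_succ (k : ℕ) (y : List Bool) : (st R p key U Q B (k + 1)).1 y = true ↔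
    (st R p key U Q B k).1 y = true ∨
      ((∃ (t : ℕ × List Bool) (w : List Bool), key t = k ∧ w.length = 2 * hl p t.1 t.2.length ∧
        ∃ b : Bool, (b = true ↔ Q t.1 t.2 (st R p key U Q B k).1) ∧
        y = code R t.1 (b :: pairBits w t.2)) ∧
        y ∉ (st R p key U Q B (k + 1)).2) := by
  classical
  simp only [st, decide_eq_true_iff]
  constructor
  · rintro (h | ⟨⟨t, w, h1, h2, h3⟩, h4⟩)
    · exact Or.inl h
    · exact Or.inr ⟨⟨t, w, h1, h2, _, by rw [decide_eq_true_iff], h3⟩, h4⟩
  · rintro (h | ⟨⟨t, w, h1, h2, b, hb, h3⟩, h4⟩)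
    · exact Or.inl h
    · refine Or.inr ⟨⟨t, w, h1, h2, ?_⟩, h4⟩
      have : b = decide (Q t.1 t.2 (st R p key U Q B k).1) := by
        by_cases hq : Q t.1 t.2 (st R p key U Q B k).1
        · rw [decide_eq_true hq]; exact hb.2 hq
        · rw [decide_eq_false hq]
          cases b
          · rfl
          · exact absurd (hb.1 rfl) hq
      rw [h3, this]

theorem st_mono {j k : ℕ} (h : j ≤ k) (y : List Bool) (hy : (st R p key U Q B j).1 y = true) :
    (st R p key U Q B k).1 y = true := by
  induction k, h using Nat.le_induction with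
  | base => exact hy
  | succ k _ ih => exact (st_succ R p key U Q B k y).2 (Or.inl ih)

theorem st_frz_mono {j k : ℕ} (h : j ≤ k) (y : List Bool) (hy : y ∈ (st R p key U Q B j).2) :
    y ∈ (st R p key U Q B k).2 := by
  induction k, h using Nat.le_induction with
  | base => exact hy
  | succ k _ ih => exact Or.inl ih

theorem st_frz_succ (k : ℕ) (y : List Bool) (hy : y ∈ (st R p key U Q B (k + 1)).2) :
    (st R p key U Q B (k + 1)).1 y = (st R p key U Q B k).1 y := by
  rw [Bool.eq_iff_iff, st_succ]
  constructor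
  · rintro (h | h)
    · exact h
    · exact absurd hy h.2
  · exact Or.inl

theorem st_frz {j k : ℕ} (h : j ≤ k) (y : List Bool) (hy : y ∈ (st R p key U Q B (j + 1)).2) :
    (st R p key U Q B k).1 y = (st R p key U Q B j).1 y := by
  induction k, h using Nat.le_induction with
  | base => rfl
  | succ k hk ih =>
    rw [st_frz_succ _ _ _ _ _ _ k y (st_frz_mono R p key U Q B (by omega) y hy), ih]

open Classical in
/-- the final oracle -/
noncomputable def Phi (B : Oracle) : Oracle := fun y =>
  decide (∃ k, (st R p key U Q B k).1 y = true)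

theorem Phi_iff (y : List Bool) :
    Phi R p key U Q B y = true ↔ ∃ k, (st R p key U Q B k).1 y = true := by
  classical
  rw [Phi, decide_eq_true_iff]

theorem Phi_frz (k : ℕ) (y : List Bool) (hy : y ∈ (st R p key U Q B (k + 1)).2) :
    Phi R p key U Q B y = (st R p key U Q B k).1 y := by
  rw [Bool.eq_iff_iff, Phi_iff]
  constructor
  · rintro ⟨j, hj⟩
    rcases le_total j k with h | h
    · exact st_mono R p key U Q B h y hj
    · rw [← st_frz R p key U Q B h y hy]; exact hj
  · exact fun h => ⟨k, h⟩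

theorem mem_frz (k : ℕ) (y : List Bool) : y ∈ (st R p key U Q B k).2 ↔
    ∃ t : ℕ × List Bool, key t < k ∧ y ∈ U t.1 t.2 (st R p key U Q B (key t)).1 := by
  induction k with
  | zero => simp [st]
  | succ k ih =>
    have h1 : y ∈ (st R p key U Q B (k + 1)).2 ↔ y ∈ (st R p key U Q B k).2 ∨
      ∃ t : ℕ × List Bool, key t = k ∧ y ∈ U t.1 t.2 (st R p key U Q B k).1 := Iff.rfl
    rw [h1, ih]
    constructor
    · rintro (⟨t, h2, h3⟩ | ⟨t, h2, h3⟩)
      · exact ⟨t, by omega, h3⟩
      · exact ⟨t, by omega, by rw [h2]; exact h3⟩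
    · rintro ⟨t, h2, h3⟩
      rcases Nat.lt_succ_iff_lt_or_eq.1 h2 with h4 | h4
      · exact Or.inl ⟨t, h4, h3⟩
      · exact Or.inr ⟨t, h4, by rw [← h4]; exact h3⟩

theorem pairBits_inj {w w' x x' : List Bool} (h : pairBits w x = pairBits w' x') :
    w = w' ∧ x = x' := by
  have h1 := congrArg unpair h
  rw [unpair_pairBits, unpair_pairBits] at h1
  exact ⟨congrArg Prod.fst h1, congrArg Prod.snd h1⟩

theorem st_code (k : ℕ) (e : ℕ) (x w : List Bool) (b : Bool)
    (hw : w.length = 2 * hl p e x.length) :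
    (st R p key U Q B k).1 (code R e (b :: pairBits w x)) = true ↔
      key (e, x) < k ∧ (b = true ↔ Q e x (st R p key U Q B (key (e, x))).1) ∧
        code R e (b :: pairBits w x) ∉ (st R p key U Q B (key (e, x) + 1)).2 := by
  induction k with
  | zero =>
    simp only [st]
    rw [if_pos ⟨_, _, rfl⟩]
    simp
  | succ k ih =>
    rw [st_succ, ih]
    constructor
    · rintro (⟨h1, h2, h3⟩ | ⟨⟨t, w', h1, h2, b', h3, h4⟩, h5⟩)
      · exact ⟨by omega, h2, h3⟩
      · obtain ⟨h6, h7⟩ := CC.code_inj R h4
        obtain ⟨h8, h9⟩ := List.cons.inj h7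
        obtain ⟨h10, h11⟩ := pairBits_inj h9
        obtain ⟨t1, t2⟩ := t
        simp only at h1 h2 h3 h4 h6 h7 h9 h11
        subst h6 h8 h11
        rw [← h1] at h3 h5
        exact ⟨by omega, h3, h5⟩
    · rintro ⟨h1, h2, h3⟩
      rcases Nat.lt_succ_iff_lt_or_eq.1 h1 with h4 | h4
      · exact Or.inl ⟨h4, h2, h3⟩
      · refine Or.inr ⟨⟨(e, x), w, h4, hw, b, ?_, rfl⟩, ?_⟩
        · rw [← h4]; exact h2
        · rw [← h4]; exact h3

theorem Phi_code (e : ℕ) (x w : List Bool) (b : Bool) (hw : w.length = 2 * hl p e x.length) :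
    Phi R p key U Q B (code R e (b :: pairBits w x)) = true ↔
      (b = true ↔ Q e x (st R p key U Q B (key (e, x))).1) ∧
        code R e (b :: pairBits w x) ∉ (st R p key U Q B (key (e, x) + 1)).2 := by
  rw [Phi_iff]
  constructor
  · rintro ⟨k, hk⟩
    exact ((st_code R p key U Q B k e x w b hw).1 hk).2
  · intro h
    exact ⟨key (e, x) + 1, (st_code R p key U Q B _ e x w b hw).2 ⟨Nat.lt_succ_self _, h⟩⟩

theorem st_not (k : ℕ) (y : List Bool) (hy : ∀ e z, y ≠ code R e z) :
    (st R p key U Q B k).1 y = true ↔ B y = true := by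
  induction k with
  | zero =>
    simp only [st]
    rw [if_neg]
    rintro ⟨e, z, h⟩
    exact hy e z h
  | succ k ih =>
    rw [st_succ, ih]
    constructor
    · rintro (h | ⟨⟨t, w', h1, h2, b', h3, h4⟩, h5⟩)
      · exact h
      · exact absurd h4 (hy _ _)
    · exact Or.inl

end XE

/-- X3 -/
theorem exists_stageE (R p : ℕ → Polynomial ℕ) (Q : ℕ → List Bool → Oracle → Prop)
    (hQ : ∀ (e : ℕ) (x : List Bool) (A : Oracle), ∃ U : Finset (List Bool),
      U.card ≤ 2 ^ (p e).eval x.length ∧
      ∀ A' : Oracle, (∀ u ∈ U, A' u = A u) → (Q e x A' ↔ Q e x A)) :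
    ∃ Φ : Oracle → Oracle, ∀ B,
      (∀ y, (∀ e z, y ≠ code R e z) → Φ B y = B y) ∧
      ∀ (e : ℕ) (x : List Bool) (b : Bool),
        (∀ w : List Bool, w.length = 2 * hl p e x.length →
          Φ B (code R e (b :: pairBits w x)) = true → (b = true ↔ Q e x (Φ B))) ∧
        ((b = true ↔ Q e x (Φ B)) → Nat.card {w : Fin (2 * hl p e x.length) → Bool //
          Φ B (code R e (b :: pairBits (List.ofFn w) x)) = false} ≤ 2 ^ hl p e x.length) := by
  classical
  obtain ⟨key, hinj, hkey⟩ := exists_key p
  choose U hU1 hU2 using hQ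
  refine ⟨XE.Phi R p key U Q, fun B => ⟨?_, ?_⟩⟩
  · intro y hy
    rw [Bool.eq_iff_iff, XE.Phi_iff]
    constructor
    · rintro ⟨k, hk⟩
      exact (XE.st_not R p key U Q B k y hy).1 hk
    · intro h
      exact ⟨0, (XE.st_not R p key U Q B 0 y hy).2 h⟩
  · intro e x b
    have hQ' : Q e x (XE.Phi R p key U Q B) ↔ Q e x (XE.st R p key U Q B (key (e, x))).1 := by
      apply hU2
      intro u hu
      apply XE.Phi_frz
      rw [XE.mem_frz]
      exact ⟨(e, x), Nat.lt_succ_self _, hu⟩
    constructor
    · intro w hw h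
      rw [hQ']
      exact ((XE.Phi_code R p key U Q B e x w b hw).1 h).1
    · intro hb
      rw [hQ'] at hb
      have hfin : {s : ℕ × List Bool | key s ≤ key (e, x)}.Finite :=
        Set.Finite.preimage hinj.injOn (Set.finite_Iic (key (e, x)))
      let S := hfin.toFinset
      have hS : ∀ s, s ∈ S ↔ key s ≤ key (e, x) := fun s => by
        simp only [S, Set.Finite.mem_toFinset, Set.mem_ofPred_eq]
      let F : Finset (List Bool) :=
        S.biUnion (fun s => U s.1 s.2 (XE.st R p key U Q B (key s)).1)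
      have hF : ∀ y, y ∈ (XE.st R p key U Q B (key (e, x) + 1)).2 ↔ y ∈ F := by
        intro y
        rw [XE.mem_frz, Finset.mem_biUnion]
        constructor
        · rintro ⟨t, h1, h2⟩
          exact ⟨t, (hS t).2 (by omega), h2⟩
        · rintro ⟨t, h1, h2⟩
          have := (hS t).1 h1
          exact ⟨t, by omega, h2⟩
      have hFc : F.card ≤ 2 ^ hl p e x.length := by
        calc F.card ≤ ∑ s ∈ S, (U s.1 s.2 (XE.st R p key U Q B (key s)).1).card :=
              Finset.card_biUnion_le
          _ ≤ ∑ s ∈ S, 2 ^ (p s.1).eval s.2.length := Finset.sum_le_sum fun s _ => hU1 _ _ _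
          _ ≤ _ := hkey (e, x) S fun s hs => (hS s).1 hs
      have hlen : ∀ w : Fin (2 * hl p e x.length) → Bool,
          (List.ofFn w).length = 2 * hl p e x.length := fun w => List.length_ofFn
      have hmem : ∀ w : {w : Fin (2 * hl p e x.length) → Bool //
          XE.Phi R p key U Q B (code R e (b :: pairBits (List.ofFn w) x)) = false},
          code R e (b :: pairBits (List.ofFn w.1) x) ∈ F := by
        intro w
        rw [← hF]
        by_contra hcon
        have h1 := (XE.Phi_code R p key U Q B e x (List.ofFn w.1) b (hlen _)).2 ⟨hb, hcon⟩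
        rw [w.2] at h1
        exact absurd h1 (by decide)
      have hinj2 : Function.Injective (fun w : {w : Fin (2 * hl p e x.length) → Bool //
          XE.Phi R p key U Q B (code R e (b :: pairBits (List.ofFn w) x)) = false} =>
          (⟨code R e (b :: pairBits (List.ofFn w.1) x), hmem w⟩ : F)) := by
        intro w w' h
        have h1 := congrArg Subtype.val h
        have h2 := (CC.code_inj R h1).2
        have h3 := (XE.pairBits_inj (List.cons.inj h2).2).1
        exact Subtype.ext (List.ofFn_injective h3)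
      calc Nat.card _ ≤ Nat.card F := Nat.card_le_card_of_injective _ hinj2
        _ = F.card := Nat.card_eq_card_toFinset _ |>.trans (by simp)
        _ ≤ _ := hFc

end Pool.Agent.H620R2.Gauge
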