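import Pool.Agent.H620R2.GaugeX.Base
import Pool.Agent.H620R2.Gauge.C
import Pool.Agent.H620R2.GaugeX.X2

/-!
# Coding lemma for nondeterministic exponential time (task X4, helper910)
-/

namespace Pool.Agent.H620R2.Gauge

open Pool.Agent.NPC Finset

namespace X4

/-- the code string of the question `t` with the witness `w` -/
def cd (R : ℕ → Polynomial ℕ) (t : ℕ × List Bool) (w : List Bool) : List Bool :=
  code R t.1 (true :: pairBits w t.2)

theorem cd_inj (R : ℕ → Polynomial ℕ) {t t' : ℕ × List Bool} {w w' : List Bool}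
    (h : cd R t w = cd R t' w') : t = t' ∧ w = w' := by
  obtain ⟨h1, h2⟩ := CC.code_inj R h
  have h3 : pairBits w t.2 = pairBits w' t'.2 := (List.cons.inj h2).2
  have h4 := congrArg unpair h3
  rw [unpair_pairBits, unpair_pairBits] at h4
  have h5 := (Prod.mk.inj h4)
  exact ⟨Prod.ext h1 h5.2, h5.1⟩

/-- `y` is a code string of the question `t` -/
def IsC (R p : ℕ → Polynomial ℕ) (t : ℕ × List Bool) (y : List Bool) : Prop :=
  ∃ w : List Bool, w.length = 2 * hl p t.1 t.2.length ∧ y = cd R t w

theorem IsC.uniq {R p : ℕ → Polynomial ℕ} {t t' : ℕ × List Bool} {y : List Bool}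
    (h : IsC R p t y) (h' : IsC R p t' y) : t = t' := by
  obtain ⟨w, _, e⟩ := h
  obtain ⟨w', _, e'⟩ := h'
  exact (cd_inj R (e.symm.trans e')).1

/-- the strings which are not changed any more -/
def Cs (R p : ℕ → Polynomial ℕ) (key : ℕ × List Bool → ℕ) (k : ℕ) (F : Finset (List Bool)) :
    Set (List Bool) :=
  {y | (∀ t, ¬ IsC R p t y) ∨ y ∈ F ∨ ∃ t, IsC R p t y ∧ key t < k}

/-- specification of one step of the construction -/
def Spec (R p : ℕ → Polynomial ℕ) (Q : ℕ → List Bool → Oracle → Prop) (key : ℕ × List Bool → ℕ)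
    (k : ℕ) (s s' : Oracle × Finset (List Bool)) : Prop :=
  (∀ y ∈ Cs R p key k s.2, s'.1 y = s.1 y) ∧ s.2 ⊆ s'.2 ∧
  ((∀ t, key t ≠ k) → s'.2 = s.2) ∧
  ∀ t, key t = k → s'.2.card ≤ s.2.card + 2 ^ (p t.1).eval t.2.length ∧
    ∀ A : Oracle, (∀ y ∈ Cs R p key (k + 1) s'.2, A y = s'.1 y) →
      ∀ w : List Bool, w.length = 2 * hl p t.1 t.2.length → cd R t w ∉ s'.2 →
        (s'.1 (cd R t w) = true ↔ Q t.1 t.2 A)

open Classical in
theorem exists_step (R p : ℕ → Polynomial ℕ) (Q : ℕ → List Bool → Oracle → Prop)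
    (hQ : ∀ (e : ℕ) (x : List Bool) (A : Oracle), Q e x A → ∃ U : Finset (List Bool),
      U.card ≤ 2 ^ (p e).eval x.length ∧
      ∀ A' : Oracle, (∀ u ∈ U, A' u = A u) → Q e x A')
    (key : ℕ × List Bool → ℕ) (hkey : Function.Injective key) (k : ℕ)
    (s : Oracle × Finset (List Bool)) : ∃ s', Spec R p Q key k s s' := by
  by_cases hk : ∃ t, key t = k
  · obtain ⟨t, ht⟩ := hk
    obtain ⟨A, F⟩ := s
    -- strings in `Cs k F` which are codes of `t` are frozen
    have hfr : ∀ y ∈ Cs R p key k F, IsC R p t y → y ∈ F := by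
      intro y hy hc
      rcases hy with h | h | ⟨t', h, h'⟩
      · exact absurd hc (h t)
      · exact h
      · rw [h.uniq hc] at h'
        omega
    by_cases hA : ∃ A' : Oracle, (∀ y ∈ Cs R p key k F, A' y = A y) ∧ Q t.1 t.2 A'
    · obtain ⟨A', hA1, hA2⟩ := hA
      obtain ⟨U, hU1, hU2⟩ := hQ _ _ _ hA2
      refine ⟨(fun y => if IsC R p t y ∧ y ∉ F ∪ U then true else A' y, F ∪ U), ?_,
        subset_union_left, fun h => absurd ht (h t), ?_⟩
      · intro y hy
        show (if IsC R p t y ∧ y ∉ F ∪ U then true else A' y) = A y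
        rw [if_neg, hA1 y hy]
        rintro ⟨h1, h2⟩
        exact h2 (mem_union_left _ (hfr y hy h1))
      · intro t' ht'
        have : t' = t := hkey (ht'.trans ht.symm)
        subst this
        refine ⟨(card_union_le _ _).trans (Nat.add_le_add_left hU1 _), ?_⟩
        intro A'' hA'' w hw hwF
        have hQA : Q t'.1 t'.2 A'' := by
          apply hU2
          intro u hu
          have h1 : A'' u = if IsC R p t' u ∧ u ∉ F ∪ U then true else A' u :=
            hA'' u (Or.inr (Or.inl (mem_union_right _ hu)))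
          rw [h1, if_neg]
          rintro ⟨_, h2⟩
          exact h2 (mem_union_right _ hu)
        have hval : (if IsC R p t' (cd R t' w) ∧ cd R t' w ∉ F ∪ U then true
            else A' (cd R t' w)) = true := by
          rw [if_pos]
          exact ⟨⟨w, hw, rfl⟩, hwF⟩
        exact ⟨fun _ => hQA, fun _ => hval⟩
    · refine ⟨(fun y => if IsC R p t y ∧ y ∉ F then false else A y, F), ?_,
        Subset.refl _, fun _ => rfl, ?_⟩
      · intro y hy
        show (if IsC R p t y ∧ y ∉ F then false else A y) = A y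
        rw [if_neg]
        rintro ⟨h1, h2⟩
        exact h2 (hfr y hy h1)
      · intro t' ht'
        have : t' = t := hkey (ht'.trans ht.symm)
        subst this
        refine ⟨Nat.le_add_right _ _, ?_⟩
        intro A'' hA'' w hw hwF
        have hQA : ¬ Q t'.1 t'.2 A'' := by
          intro hq
          apply hA
          refine ⟨A'', fun y hy => ?_, hq⟩
          have hy2 : y ∈ Cs R p key (k + 1) F := by
            rcases hy with h | h | ⟨t2, h, h'⟩
            · exact Or.inl h
            · exact Or.inr (Or.inl h)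
            · exact Or.inr (Or.inr ⟨t2, h, by omega⟩)
          have h1 : A'' y = if IsC R p t' y ∧ y ∉ F then false else A y := hA'' y hy2
          rw [h1, if_neg]
          rintro ⟨h1, h2⟩
          exact h2 (hfr y hy h1)
        have hval : (if IsC R p t' (cd R t' w) ∧ cd R t' w ∉ F then false
            else A (cd R t' w)) = false := by
          rw [if_pos]
          exact ⟨⟨w, hw, rfl⟩, hwF⟩
        constructor
        · intro h
          have h2 : (if IsC R p t' (cd R t' w) ∧ cd R t' w ∉ F then false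
            else A (cd R t' w)) = true := h
          rw [hval] at h2
          exact absurd h2 (by simp)
        · intro h
          exact absurd h hQA
  · refine ⟨s, fun y _ => rfl, Subset.refl _, fun _ => rfl, fun t ht => absurd ⟨t, ht⟩ hk⟩

theorem Cs_mono (R p : ℕ → Polynomial ℕ) (key : ℕ × List Bool → ℕ) {k k' : ℕ}
    {F F' : Finset (List Bool)} (hk : k ≤ k') (hF : F ⊆ F') :
    Cs R p key k F ⊆ Cs R p key k' F' := by
  rintro y (h | h | ⟨t, h, h'⟩)
  · exact Or.inl h
  · exact Or.inr (Or.inl (hF h))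
  · exact Or.inr (Or.inr ⟨t, h, by omega⟩)

/-- for one oracle `B` -/
theorem stage_one (R p : ℕ → Polynomial ℕ) (Q : ℕ → List Bool → Oracle → Prop)
    (hQ : ∀ (e : ℕ) (x : List Bool) (A : Oracle), Q e x A → ∃ U : Finset (List Bool),
      U.card ≤ 2 ^ (p e).eval x.length ∧
      ∀ A' : Oracle, (∀ u ∈ U, A' u = A u) → Q e x A')
    (key : ℕ × List Bool → ℕ) (hkey : Function.Injective key)
    (hsum : ∀ (t : ℕ × List Bool) (S : Finset (ℕ × List Bool)), (∀ s ∈ S, key s ≤ key t) →
      ∑ s ∈ S, 2 ^ (p s.1).eval s.2.length ≤ 2 ^ hl p t.1 t.2.length) (B : Oracle) :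
    ∃ A : Oracle, (∀ y, (∀ e z, y ≠ code R e z) → A y = B y) ∧
      ∀ (e : ℕ) (x : List Bool), Nat.card {w : Fin (2 * hl p e x.length) → Bool //
          ¬ (A (code R e (true :: pairBits (List.ofFn w) x)) = true ↔ Q e x A)} ≤
        2 ^ hl p e x.length := by
  classical
  have hstep := fun k s => exists_step R p Q hQ key hkey k s
  choose nx hnx using hstep
  obtain ⟨st, hst0, hstS⟩ : ∃ st : ℕ → Oracle × Finset (List Bool), st 0 = (B, ∅) ∧
      ∀ k, st (k + 1) = nx k (st k) :=
    ⟨fun k => Nat.rec (motive := fun _ => Oracle × Finset (List Bool)) (B, ∅) nx k, rfl,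
      fun k => rfl⟩
  have hspec : ∀ k, Spec R p Q key k (st k) (st (k + 1)) := fun k => by
    rw [hstS]
    exact hnx k (st k)
  have hFm : ∀ k j, k ≤ j → (st k).2 ⊆ (st j).2 := by
    intro k j h
    induction j, h using Nat.le_induction with
    | base => exact Subset.refl _
    | succ j _ ih => exact ih.trans (hspec j).2.1
  have hAg : ∀ k j, k ≤ j → ∀ y ∈ Cs R p key k (st k).2, (st j).1 y = (st k).1 y := by
    intro k j h
    induction j, h using Nat.le_induction with
    | base => exact fun y _ => rfl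
    | succ j hj ih =>
      intro y hy
      rw [← ih y hy]
      exact (hspec j).1 y (Cs_mono R p key hj (hFm k j hj) hy)
  have hcard : ∀ k, ∃ S : Finset (ℕ × List Bool), (∀ s ∈ S, key s < k) ∧
      (st k).2.card ≤ ∑ s ∈ S, 2 ^ (p s.1).eval s.2.length := by
    intro k
    induction k with
    | zero => exact ⟨∅, by simp, by simp [hst0]⟩
    | succ k ih =>
      obtain ⟨S, hS1, hS2⟩ := ih
      by_cases hk : ∃ t, key t = k
      · obtain ⟨t, ht⟩ := hk
        have hnot : t ∉ S := fun h => by
          have := hS1 t h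
          omega
        refine ⟨insert t S, ?_, ?_⟩
        · intro s hs
          rcases mem_insert.1 hs with rfl | h
          · omega
          · have := hS1 s h
            omega
        · rw [sum_insert hnot]
          have := ((hspec k).2.2.2 t ht).1
          omega
      · refine ⟨S, fun s hs => by have := hS1 s hs; omega, ?_⟩
        rw [(hspec k).2.2.1 fun t ht => hk ⟨t, ht⟩]
        exact hS2
  -- the limit oracle
  obtain ⟨A, hA1, hA2⟩ : ∃ A : Oracle, (∀ y, (∀ t, ¬ IsC R p t y) → A y = B y) ∧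
      ∀ t y, IsC R p t y → A y = (st (key t + 1)).1 y := by
    refine ⟨fun y => if h : ∃ t, IsC R p t y then (st (key h.choose + 1)).1 y else B y, ?_, ?_⟩
    · intro y hy
      beta_reduce
      rw [dif_neg]
      rintro ⟨t, ht⟩
      exact hy t ht
    · intro t y hty
      have h : ∃ t, IsC R p t y := ⟨t, hty⟩
      beta_reduce
      rw [dif_pos h, h.choose_spec.uniq hty]
  have hAk : ∀ k, ∀ y ∈ Cs R p key k (st k).2, A y = (st k).1 y := by
    intro k y hy
    by_cases h : ∃ t, IsC R p t y
    · obtain ⟨t, ht⟩ := h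
      rw [hA2 t y ht]
      have h1 := hAg (key t + 1) (max (key t + 1) k) (le_max_left _ _) y
        (Or.inr (Or.inr ⟨t, ht, Nat.lt_succ_self _⟩))
      have h2 := hAg k (max (key t + 1) k) (le_max_right _ _) y hy
      rw [← h1, h2]
    · have h' : ∀ t, ¬ IsC R p t y := fun t ht => h ⟨t, ht⟩
      rw [hA1 y h']
      have h2 := hAg 0 k (Nat.zero_le _) y (Or.inl h')
      rw [h2, hst0]
  refine ⟨A, fun y hy => hA1 y fun t ht => ?_, fun e x => ?_⟩
  · obtain ⟨w, _, hw⟩ := ht
    exact hy _ _ hw
  · obtain ⟨S, hS1, hS2⟩ := hcard (key (e, x) + 1)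
    have hF : (st (key (e, x) + 1)).2.card ≤ 2 ^ hl p e x.length :=
      hS2.trans (hsum (e, x) S fun s hs => Nat.lt_succ_iff.1 (hS1 s hs))
    refine le_trans ?_ hF
    have hsp := ((hspec (key (e, x))).2.2.2 (e, x) rfl).2 A
      (fun y hy => hAk (key (e, x) + 1) y hy)
    have key2 : ∀ w : Fin (2 * hl p e x.length) → Bool,
        ¬ (A (code R e (true :: pairBits (List.ofFn w) x)) = true ↔ Q e x A) →
        code R e (true :: pairBits (List.ofFn w) x) ∈ (st (key (e, x) + 1)).2 := by
      intro w hw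
      by_contra hn
      apply hw
      have hl' : (List.ofFn w).length = 2 * hl p e x.length := List.length_ofFn
      have h1 := hsp (List.ofFn w) hl' hn
      have h2 : A (cd R (e, x) (List.ofFn w)) =
          (st (key (e, x) + 1)).1 (cd R (e, x) (List.ofFn w)) :=
        hAk (key (e, x) + 1) _ (Or.inr (Or.inr ⟨(e, x), ⟨_, hl', rfl⟩, Nat.lt_succ_self _⟩))
      rw [← h2] at h1
      exact h1
    have hinj : Function.Injective (fun w : {w : Fin (2 * hl p e x.length) → Bool //
        ¬ (A (code R e (true :: pairBits (List.ofFn w) x)) = true ↔ Q e x A)} =>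
        (⟨code R e (true :: pairBits (List.ofFn w.1) x), key2 w.1 w.2⟩ :
          {y // y ∈ (st (key (e, x) + 1)).2})) := by
      intro w w' h
      have h1 : cd R (e, x) (List.ofFn w.1) = cd R (e, x) (List.ofFn w'.1) :=
        congrArg Subtype.val h
      exact Subtype.ext (List.ofFn_injective (cd_inj R h1).2)
    have hc : ∀ F : Finset (List Bool), Nat.card {y // y ∈ F} = F.card := fun F => by
      rw [Nat.card_eq_fintype_card, Fintype.card_coe]
    exact (Nat.card_le_card_of_injective _ hinj).trans (hc _).le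

end X4

/-- `exists_stageN`, given the order of the questions of X2 (`hk := exists_key p`) -/
theorem exists_stageN_of (R p : ℕ → Polynomial ℕ)
    (hk : ∃ key : ℕ × List Bool → ℕ, Function.Injective key ∧
      ∀ (t : ℕ × List Bool) (S : Finset (ℕ × List Bool)), (∀ s ∈ S, key s ≤ key t) →
        ∑ s ∈ S, 2 ^ (p s.1).eval s.2.length ≤ 2 ^ hl p t.1 t.2.length)
    (Q : ℕ → List Bool → Oracle → Prop)
    (hQ : ∀ (e : ℕ) (x : List Bool) (A : Oracle), Q e x A → ∃ U : Finset (List Bool),
      U.card ≤ 2 ^ (p e).eval x.length ∧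
      ∀ A' : Oracle, (∀ u ∈ U, A' u = A u) → Q e x A') :
    ∃ Φ : Oracle → Oracle, ∀ B,
      (∀ y, (∀ e z, y ≠ code R e z) → Φ B y = B y) ∧
      ∀ (e : ℕ) (x : List Bool), Nat.card {w : Fin (2 * hl p e x.length) → Bool //
          ¬ (Φ B (code R e (true :: pairBits (List.ofFn w) x)) = true ↔ Q e x (Φ B))} ≤
        2 ^ hl p e x.length := by
  obtain ⟨key, hkey, hsum⟩ := hk
  have h := fun B => X4.stage_one R p Q hQ key hkey hsum B
  choose Φ hΦ using h
  exact ⟨Φ, hΦ⟩

/-- X4 -/
theorem exists_stageN (R p : ℕ → Polynomial ℕ) (Q : ℕ → List Bool → Oracle → Prop)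
    (hQ : ∀ (e : ℕ) (x : List Bool) (A : Oracle), Q e x A → ∃ U : Finset (List Bool),
      U.card ≤ 2 ^ (p e).eval x.length ∧
      ∀ A' : Oracle, (∀ u ∈ U, A' u = A u) → Q e x A') :
    ∃ Φ : Oracle → Oracle, ∀ B,
      (∀ y, (∀ e z, y ≠ code R e z) → Φ B y = B y) ∧
      ∀ (e : ℕ) (x : List Bool), Nat.card {w : Fin (2 * hl p e x.length) → Bool //
          ¬ (Φ B (code R e (true :: pairBits (List.ofFn w) x)) = true ↔ Q e x (Φ B))} ≤
        2 ^ hl p e x.length :=
  exists_stageN_of R p (exists_key p) Q hQ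

end Pool.Agent.H620R2.Gauge
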