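import Pool.Agent.H620R2.GaugeX.Base
import Pool.Agent.H620R2.Gauge.Q

/-!
# Task X5: the codes are few (helper619)
-/

namespace Pool.Agent.H620R2.Gauge

open Pool.Agent.NPC Finset

open Classical in
/-- X5 -/
theorem exists_const {f : ℕ → ℝ} (hf : ¬ Cond f) : ∃ K : ℕ, ∀ R : ℕ → Polynomial ℕ,
    (∀ e n, (n + e + 1) ^ K ≤ (R e).eval n) → ∃ c : ℝ, ∀ N : ℕ,
      (((Finset.range N).filter (fun i => str i ∈ {y | ∃ e z, y = code R e z})).card : ℝ) ≤
        f N + c := by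
  unfold Cond at hf
  push Not at hf
  obtain ⟨ε, hε, hf⟩ := hf
  obtain ⟨K, hK⟩ := exists_nat_gt (1 / ε)
  have hK' : 1 < ε * K := by
    rw [div_lt_iff₀ hε] at hK
    linarith
  refine ⟨K, fun R hR => ?_⟩
  have hsp := sparse R hR hε hK'
  obtain ⟨N₀, hN₀⟩ := Filter.eventually_atTop.1 (hf.and hsp)
  set g : ℕ → ℝ := fun N =>
    (((Finset.range N).filter (fun i => str i ∈ {y | ∃ e z, y = code R e z})).card : ℝ) with hg
  refine ⟨∑ N ∈ Finset.range N₀, |g N - f N|, fun N => ?_⟩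
  change g N ≤ _
  have hc0 : 0 ≤ ∑ M ∈ Finset.range N₀, |g M - f M| :=
    Finset.sum_nonneg fun M _ => abs_nonneg _
  rcases Nat.lt_or_ge N N₀ with h | h
  · have h1 : |g N - f N| ≤ ∑ M ∈ Finset.range N₀, |g M - f M| :=
      Finset.single_le_sum (f := fun M => |g M - f M|) (fun M _ => abs_nonneg _)
        (Finset.mem_range.2 h)
    have h2 := le_abs_self (g N - f N)
    linarith
  · obtain ⟨h1, h2⟩ := hN₀ N h
    have h3 : g N ≤ 2 ^ (Real.logb 2 N) ^ ε := by
      refine le_trans (le_of_eq ?_) h2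
      rw [hg]
      congr 2
    linarith

end Pool.Agent.H620R2.Gauge
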