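import Pool.Agent.H620R2.GaugeX.Base
import Pool.Agent.H620R2.Gauge.A2
import Pool.Agent.H620R2.Gauge.C

/-!
# X6: the zero error algorithm from the codes (helper790)
-/

namespace Pool.Agent.H620R2.Gauge

open Pool.Agent.NPC Finset

namespace X6

/-- the two questions -/
def Q (R : ℕ → Polynomial ℕ) (e : ℕ) (y : List Bool) : List (List Bool) :=
  [code R e (true :: y), code R e (false :: y)]

/-- the answer -/
def H (z : List Bool × List Bool) : List Bool :=
  if z.2.head? = some true then [true]
  else if z.2.tail.head? = some true then [false] else []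

theorem poly_Q (R : ℕ → Polynomial ℕ) (e : ℕ) : Poly (Q R e) := by
  have h1 : Poly (fun y : List Bool => code R e (true :: y)) :=
    (CC.poly_code R e).comp (NPC.Poly.cons (NPC.Poly.const true) NPC.Poly.id)
  have h2 : Poly (fun y : List Bool => code R e (false :: y)) :=
    (CC.poly_code R e).comp (NPC.Poly.cons (NPC.Poly.const false) NPC.Poly.id)
  exact NPC.Poly.cons h1 (NPC.Poly.cons h2 (NPC.Poly.const []))

theorem poly_H : Poly H := by
  have h1 : Poly (fun z : List Bool × List Bool => z.2.head?) :=
    NPC.Poly.head? (NPC.Poly.snd NPC.Poly.id)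
  have h2 : Poly (fun z : List Bool × List Bool => z.2.tail.head?) :=
    NPC.Poly.head? (NPC.Poly.tail (NPC.Poly.snd NPC.Poly.id))
  exact NPC.Poly.ite (NPC.Poly.decide_eq h1 (NPC.Poly.const (some true)))
    (NPC.Poly.const [true])
    (NPC.Poly.ite (NPC.Poly.decide_eq h2 (NPC.Poly.const (some true)))
      (NPC.Poly.const [false]) (NPC.Poly.const []))

/-- the algorithm -/
def V (R : ℕ → Polynomial ℕ) (e : ℕ) (A : Oracle) (y : List Bool) : List Bool :=
  H (y, (Q R e y).map A)

theorem isFP_V (R : ℕ → Polynomial ℕ) (e : ℕ) (A : Oracle) : IsFP A (V R e A) :=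
  IsFP.tt (poly_Q R e) poly_H

theorem V_eq (R : ℕ → Polynomial ℕ) (e : ℕ) (A : Oracle) (y : List Bool) :
    V R e A y = if A (code R e (true :: y)) = true then [true]
      else if A (code R e (false :: y)) = true then [false] else [] := by
  simp [V, H, Q]

/-- counting -/
theorem count {h : ℕ} (hh : 2 ≤ h) (P G : (Fin (2 * h) → Bool) → Prop)
    (hPG : ∀ w, ¬ P w → G w) (hP : Nat.card {w // P w} ≤ 2 ^ h) :
    (1 : ℝ) / 2 ≤ (Nat.card {w // G w} : ℝ) / 2 ^ (2 * h) := by
  classical
  have h1 : Fintype.card {w // P w} + Fintype.card {w // ¬ P w} = 2 ^ (2 * h) := by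
    rw [Fintype.card_subtype_compl]
    have := Fintype.card_subtype_le P
    have h3 : Fintype.card (Fin (2 * h) → Bool) = 2 ^ (2 * h) := by simp
    rw [h3] at this ⊢
    omega
  have h2 : Fintype.card {w // ¬ P w} ≤ Fintype.card {w // G w} :=
    Fintype.card_subtype_mono _ _ (fun w hw => hPG w hw)
  rw [Nat.card_eq_fintype_card] at hP
  have h4 : 2 ^ (2 * h) ≤ 2 ^ h + Fintype.card {w // G w} := by omega
  have h5 : 4 * 2 ^ h ≤ 2 ^ (2 * h) := by
    have : (4 : ℕ) = 2 ^ 2 := rfl
    rw [this, ← pow_add]
    exact Nat.pow_le_pow_right (by norm_num) (by omega)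
  have h6 : 2 ^ (2 * h) ≤ 2 * Fintype.card {w // G w} := by omega
  have h7 : ((2 : ℝ) ^ (2 * h)) ≤ 2 * (Nat.card {w // G w} : ℝ) := by
    rw [Nat.card_eq_fintype_card]
    exact_mod_cast h6
  rw [le_div_iff₀ (by positivity)]
  linarith

end X6

open X6 in
/-- X6 -/
theorem isZPP_of_code (R p : ℕ → Polynomial ℕ) (A : Oracle) (e : ℕ) (L : Set (List Bool))
    (h1 : ∀ (x : List Bool) (b : Bool) (w : List Bool), w.length = 2 * hl p e x.length →
      A (code R e (b :: pairBits w x)) = true → (b = true ↔ x ∈ L))
    (h2 : ∀ (x : List Bool) (b : Bool), (b = true ↔ x ∈ L) →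
      Nat.card {w : Fin (2 * hl p e x.length) → Bool //
        A (code R e (b :: pairBits (List.ofFn w) x)) = false} ≤ 2 ^ hl p e x.length) :
    IsZPP A L := by
  classical
  refine ⟨V R e A, Polynomial.C 2 * (p e + Polynomial.C 2 * Polynomial.X + Polynomial.C (e + 2)),
    isFP_V R e A, fun x => ?_⟩
  have hev : (Polynomial.C 2 * (p e + Polynomial.C 2 * Polynomial.X +
      Polynomial.C (e + 2))).eval x.length = 2 * hl p e x.length := by
    simp only [Polynomial.eval_mul, Polynomial.eval_add, Polynomial.eval_C, Polynomial.eval_X, hl]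
    ring
  rw [hev]
  constructor
  · intro w hw
    rw [V_eq]
    constructor
    · intro h
      split_ifs at h with h3 h4
      · exact (h1 x true w hw h3).1 rfl
      · simp at h
    · intro h hx
      split_ifs at h with h3 h4
      · simp at h
      · exact absurd ((h1 x false w hw h4).2 hx) (by simp)
  · refine count (by unfold hl; omega) (fun w : Fin (2 * hl p e x.length) → Bool =>
      A (code R e (decide (x ∈ L) :: pairBits (List.ofFn w) x)) = false) _ (fun w hw => ?_)
      (h2 x (decide (x ∈ L)) (by simp))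
    have h3 : A (code R e (decide (x ∈ L) :: pairBits (List.ofFn w) x)) = true := by
      simpa using hw
    rw [V_eq]
    by_cases hx : x ∈ L
    · left
      rw [decide_eq_true hx] at h3
      rw [if_pos h3]
    · rw [decide_eq_false hx] at h3
      by_cases h5 : A (code R e (true :: pairBits (List.ofFn w) x)) = true
      · left
        rw [if_pos h5]
      · right
        rw [if_neg h5, if_pos h3]

end Pool.Agent.H620R2.Gauge
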