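import Pool.Agent.H620R2.GaugeX.Base
import Pool.Agent.H620R2.Gauge.C

/-!
# Task X8: polynomial space questions (helper938)
-/

namespace Pool.Agent.H620R2.Gauge

open Pool.Agent.NPC Finset

/-- X8 -/
theorem pspace_task (M : SAlg) (p : Polynomial ℕ) : ∃ b : Polynomial ℕ,
    ∀ (A : Oracle) (L : Set (List Bool)),
      (∀ x, (∀ s, M.Reach A x s → s.length ≤ p.eval x.length) ∧
        ∃ s z, M.Reach A x s ∧ M.act (pairBits x s) = true :: z ∧ (x ∈ L ↔ z = [true])) →
      ∀ x, x ∈ L ↔ CC.Acc M (CC.cut (b.eval x.length) A) x := by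
  obtain ⟨b, hb⟩ := CC.act_length M p
  refine ⟨b, fun A L hM x => ?_⟩
  obtain ⟨hM1, s, z, hs, hz, hL⟩ := hM x
  have hcong : ∀ s, M.Reach (CC.cut (b.eval x.length) A) x s ↔ M.Reach A x s := by
    refine CC.reach_congr (fun s => s.length ≤ p.eval x.length) hM1 ?_
    intro s q h1 h2
    have h3 := hb x s h1
    rw [h2, List.length_cons] at h3
    unfold CC.cut
    rw [if_pos (by omega)]
  constructor
  · intro hx
    refine ⟨s, (hcong s).2 hs, ?_⟩
    rw [hz, hL.1 hx]
  · rintro ⟨t, ht, ht2⟩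
    have hst := CC.reach_unique hs ((hcong t).1 ht) ⟨_, hz⟩ ⟨_, ht2⟩
    rw [hst, ht2] at hz
    simp only [List.cons.injEq, true_and] at hz
    exact hL.2 hz.symm

end Pool.Agent.H620R2.Gauge
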