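import Pool.Agent.H620R2.GaugeX.Base

/-!
# Task X9 (helper18): growth lemmas
-/

namespace Pool.Agent.H620R2.Gauge

open Pool.Agent.NPC

namespace X9

theorem eval_le (P : Polynomial ℕ) (m : ℕ) (hm : 1 ≤ m) :
    P.eval m ≤ P.eval 1 * m ^ P.natDegree := by
  rw [Polynomial.eval_eq_sum_range, Polynomial.eval_eq_sum_range, Finset.sum_mul]
  refine Finset.sum_le_sum fun i hi => ?_
  rw [Finset.mem_range] at hi
  rw [one_pow, mul_one]
  exact Nat.mul_le_mul_left _ (Nat.pow_le_pow_right hm (by omega))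

theorem exists_n0 (P : Polynomial ℕ) : ∃ n₀ : ℕ, ∀ n ≥ n₀, P.eval n ≤ 2 ^ n := by
  have h := tendsto_pow_const_div_const_pow_of_one_lt P.natDegree (r := (2 : ℝ)) (by norm_num)
  have h2 : ∀ᶠ n : ℕ in Filter.atTop,
      (n : ℝ) ^ P.natDegree / 2 ^ n < 1 / ((P.eval 1 : ℕ) + 1 : ℝ) :=
    h.eventually_lt_const (by positivity)
  obtain ⟨n₁, hn₁⟩ := Filter.eventually_atTop.1 h2
  refine ⟨max n₁ 1, fun n hn => ?_⟩
  have h3 := hn₁ n ((le_max_left _ _).trans hn)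
  have h4 := eval_le P n ((le_max_right _ _).trans hn)
  rw [div_lt_div_iff₀ (by positivity) (by positivity), one_mul] at h3
  have h5 : ((P.eval 1 * n ^ P.natDegree : ℕ) : ℝ) ≤ ((2 ^ n : ℕ) : ℝ) := by
    push_cast
    have h6 : (0 : ℝ) ≤ (n : ℝ) ^ P.natDegree := by positivity
    nlinarith
  exact h4.trans (by exact_mod_cast h5)

end X9

/-- X9 -/
theorem exists_diag (g : ℕ → Alg) : ∃ n : ℕ → ℕ, Function.Injective n ∧
    ∀ j, (g j).p.eval (n j) ≤ 2 ^ n j := by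
  choose n₀ hn₀ using fun j => X9.exists_n0 (g j).p
  refine ⟨fun j => ∑ i ∈ Finset.range (j + 1), (n₀ i + 1), ?_, fun j => hn₀ j _ ?_⟩
  · apply StrictMono.injective
    apply strictMono_nat_of_lt_succ
    intro j
    show ∑ i ∈ Finset.range (j + 1), (n₀ i + 1) < ∑ i ∈ Finset.range (j + 1 + 1), (n₀ i + 1)
    rw [Finset.sum_range_succ _ (j + 1)]
    omega
  · show n₀ j ≤ ∑ i ∈ Finset.range (j + 1), (n₀ i + 1)
    rw [Finset.sum_range_succ]
    omega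

/-- X9 -/
theorem exists_exp_bound (P q : Polynomial ℕ) : ∃ r : Polynomial ℕ, ∀ n : ℕ,
    P.eval (2 * 2 ^ q.eval n + 1 + n) ≤ 2 ^ r.eval n := by
  refine ⟨Polynomial.C (P.eval 1) +
    (q + Polynomial.X + Polynomial.C 2) * Polynomial.C P.natDegree, fun n => ?_⟩
  simp only [Polynomial.eval_add, Polynomial.eval_mul, Polynomial.eval_C, Polynomial.eval_X]
  have h1 := X9.eval_le P (2 * 2 ^ q.eval n + 1 + n) (by omega)
  refine h1.trans ?_
  rw [pow_add, pow_mul]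
  refine Nat.mul_le_mul Nat.lt_two_pow_self.le (Nat.pow_le_pow_left ?_ _)
  have h2 : n < 2 ^ n := Nat.lt_two_pow_self
  have h3 : 1 ≤ 2 ^ q.eval n := Nat.one_le_two_pow
  rw [pow_add, pow_add]
  have h4 : 2 ^ q.eval n * 1 ≤ 2 ^ q.eval n * 2 ^ n :=
    Nat.mul_le_mul_left _ Nat.one_le_two_pow
  have h5 : 1 * 2 ^ n ≤ 2 ^ q.eval n * 2 ^ n := Nat.mul_le_mul_right _ h3
  omega

end Pool.Agent.H620R2.Gauge
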