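import Pool.Agent.H620R2.GaugeX.X1
import Pool.Agent.H620R2.GaugeX.X3
import Pool.Agent.H620R2.GaugeX.X4
import Pool.Agent.H620R2.GaugeX.X5
import Pool.Agent.H620R2.GaugeX.X6
import Pool.Agent.H620R2.GaugeX.X7
import Pool.Agent.H620R2.GaugeX.X8
import Pool.Agent.H620R2.GaugeX.X9
import Pool.Agent.H620R2.GaugeX.X10
import Pool.Agent.H620R2.GaugeX.X11
import Pool.Agent.H620R2.GaugeX.X12
import Pool.Agent.H620R2.GaugeR.R8
import Pool.Agent.H620R2.Gauge2.Trans

/-! There are many oracles for which exponential time has zero error randomized polynomial-time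
algorithms, and many for which nondeterministic exponential time has bounded error ones. -/

namespace Pool.Agent.H620R2.Gauge

open Pool.Agent.NPC Finset H568R2 Pool.Agent.H676 MeasureTheory

/-- the questions: deterministic exponential time, polynomial space, or (for `none`) diagonal -/
abbrev Idx : Type := Option ((Alg × Polynomial ℕ) ⊕ (SAlg × Polynomial ℕ))

theorem exists_idx : ∃ g : ℕ → Idx, Function.Surjective g := by
  have h1 := CC.poly_countable
  have h2 := CC.salg_countable
  exact exists_surjective_nat _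

theorem exists_alg : ∃ g : ℕ → Alg, Function.Surjective g := by
  have hne : Nonempty Alg := by
    obtain ⟨M, _⟩ := IsFP.of_poly (A := fun _ => false) (F := fun x => x) Poly.id
    exact ⟨M⟩
  exact exists_surjective_nat Alg

/-- the predicate of the question -/
def QX (al : ℕ → Alg) (n : ℕ → ℕ) (bd : SAlg → Polynomial ℕ → Polynomial ℕ) :
    Idx → List Bool → Oracle → Prop
  | none, x, A => ∃ j, x = List.replicate (n j) true ∧ (al j).out A x ≠ some [true]
  | some (Sum.inl (M, q)), x, A => M.run A x (2 ^ q.eval x.length) [] = some [true]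
  | some (Sum.inr (M, q)), x, A => CC.Acc M (CC.cut ((bd M q).eval x.length) A) x

/-- the bound for the number of strings -/
noncomputable def pX (bd : SAlg → Polynomial ℕ → Polynomial ℕ) : Idx → Polynomial ℕ
  | none => Polynomial.X
  | some (Sum.inl (_, q)) => q
  | some (Sum.inr (M, q)) => bd M q + 1

theorem QX_local {al : ℕ → Alg} {n : ℕ → ℕ} (hn : Function.Injective n)
    (hn2 : ∀ j, (al j).p.eval (n j) ≤ 2 ^ n j) (bd : SAlg → Polynomial ℕ → Polynomial ℕ)
    (i : Idx) (x : List Bool) (A : Oracle) : ∃ U : Finset (List Bool),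
      U.card ≤ 2 ^ (pX bd i).eval x.length ∧
      ∀ A' : Oracle, (∀ u ∈ U, A' u = A u) → (QX al n bd i x A' ↔ QX al n bd i x A) := by
  rcases i with _ | ⟨M, q⟩ | ⟨M, q⟩
  · by_cases hx : ∃ j, x = List.replicate (n j) true
    · obtain ⟨j, hj⟩ := hx
      obtain ⟨U, hU1, hU2⟩ := run_local (al j) A x ((al j).p.eval x.length) []
      refine ⟨U, hU1.trans ?_, fun A' hA' => ?_⟩
      · have h1 : x.length = n j := by rw [hj, List.length_replicate]
        simp only [pX, Polynomial.eval_X]
        rw [h1]
        exact hn2 j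
      · have h2 : (al j).out A' x = (al j).out A x := hU2 A' hA'
        have h3 : ∀ j', x = List.replicate (n j') true → j' = j := by
          intro j' hj'
          apply hn
          have h4 := congrArg List.length (hj'.symm.trans hj)
          rwa [List.length_replicate, List.length_replicate] at h4
        constructor
        · rintro ⟨j', h5, h6⟩
          have h7 := h3 j' h5
          subst h7
          exact ⟨j', h5, fun h => h6 (h2.trans h)⟩
        · rintro ⟨j', h5, h6⟩
          have h7 := h3 j' h5
          subst h7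
          exact ⟨j', h5, fun h => h6 (h2.symm.trans h)⟩
    · refine ⟨∅, by simp, fun A' _ => ?_⟩
      constructor
      · rintro ⟨j, hj, _⟩
        exact absurd ⟨j, hj⟩ hx
      · rintro ⟨j, hj, _⟩
        exact absurd ⟨j, hj⟩ hx
  · obtain ⟨U, hU1, hU2⟩ := run_local M A x (2 ^ q.eval x.length) []
    refine ⟨U, hU1, fun A' hA' => ?_⟩
    simp only [QX]
    rw [hU2 A' hA']
  · obtain ⟨U, hU1, hU2⟩ := exists_short ((bd M q).eval x.length)
    refine ⟨U, ?_, fun A' hA' => ?_⟩
    · simpa [pX] using hU1
    · have h : CC.cut ((bd M q).eval x.length) A' = CC.cut ((bd M q).eval x.length) A := by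
        funext y
        unfold CC.cut
        split_ifs with hy
        · exact hA' y (hU2 y hy)
        · rfl
      simp only [QX, h]

open Classical in
theorem not_nullT {f : ℕ → ℝ} (hf : ¬ Cond f) (O : Set Oracle)
    (hO : ∀ A : Oracle, (∀ L, IsEXP A L ∨ IsPSPACE A L → IsZPP A L) →
      (∃ L, IsZPP A L ∧ ¬ IsP A L) → A ∈ O) : ¬ Null f O := by
  obtain ⟨g, hg⟩ := exists_idx
  obtain ⟨al, hal⟩ := exists_alg
  obtain ⟨n, hn, hn2⟩ := exists_diag al
  choose bd hbd using pspace_task
  obtain ⟨K, hK⟩ := exists_const hf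
  set R : ℕ → Polynomial ℕ := fun e => (Polynomial.X + Polynomial.C (e + 1)) ^ K with hR
  have hRe : ∀ e n, (n + e + 1) ^ K ≤ (R e).eval n := by
    intro e n
    rw [hR]
    simp only [Polynomial.eval_pow, Polynomial.eval_add, Polynomial.eval_X, Polynomial.eval_C]
    rw [add_assoc]
  obtain ⟨c, hc⟩ := hK R hRe
  set p : ℕ → Polynomial ℕ := fun e => pX bd (g e) with hp
  obtain ⟨Φ, hΦ⟩ := exists_stageE R p (fun e => QX al n bd (g e))
    (fun e x A => QX_local hn hn2 bd (g e) x A)
  refine not_null_of f Set.univ (by rw [measure_univ]; exact one_pos) Φ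
    {y : List Bool | ∃ e z, y = code R e z} ?_ c hc O ?_
  · intro B y hy
    exact (hΦ B).1 y fun e z h => hy ⟨e, z, h⟩
  · intro B _
    have hZ : ∀ e, IsZPP (Φ B) {x | QX al n bd (g e) x (Φ B)} := by
      intro e
      refine isZPP_of_code R p (Φ B) e _ ?_ ?_
      · intro x b w hw h
        exact ((hΦ B).2 e x b).1 w hw h
      · intro x b h
        exact ((hΦ B).2 e x b).2 h
    apply hO
    · rintro L (⟨M, hM⟩ | ⟨M, q, hM⟩)
      · obtain ⟨e, he⟩ := hg (some (Sum.inl (M, M.p)))
        have h1 := hZ e
        rw [he] at h1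
        have h2 : L = {x | QX al n bd (some (Sum.inl (M, M.p))) x (Φ B)} := by
          ext x
          obtain ⟨z, hz, hx⟩ := hM x
          simp only [Set.mem_ofPred_eq, QX]
          rw [hz, hx, Option.some.injEq]
        rw [h2]
        exact h1
      · obtain ⟨e, he⟩ := hg (some (Sum.inr (M, q)))
        have h1 := hZ e
        rw [he] at h1
        have h2 : L = {x | QX al n bd (some (Sum.inr (M, q))) x (Φ B)} := by
          ext x
          exact hbd M q (Φ B) L hM x
        rw [h2]
        exact h1
    · obtain ⟨e, he⟩ := hg none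
      have h1 := hZ e
      rw [he] at h1
      refine ⟨_, h1, ?_⟩
      rintro ⟨V, ⟨M, hM⟩, hV⟩
      obtain ⟨j, rfl⟩ := hal M
      have h2 := hV (List.replicate (n j) true)
      simp only [Set.mem_ofPred_eq, QX] at h2
      by_cases h3 : V (List.replicate (n j) true) = [true]
      · obtain ⟨j', h4, h5⟩ := h2.2 h3
        have h6 : j' = j := by
          apply hn
          have h7 := congrArg List.length h4
          rw [List.length_replicate, List.length_replicate] at h7
          exact h7.symm
        subst h6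
        apply h5
        rw [hM, h3]
      · apply h3
        apply h2.1
        refine ⟨j, rfl, ?_⟩
        rw [hM]
        intro h8
        exact h3 (Option.some.inj h8)

/-- the bound for the number of strings, nondeterministic exponential time -/
theorem nexp_local (M : Alg) (q : Polynomial ℕ) : ∃ r : Polynomial ℕ,
    ∀ (x : List Bool) (A : Oracle),
      (∃ w : List Bool, w.length = 2 ^ q.eval x.length ∧ M.out A (pairBits w x) = some [true]) →
      ∃ U : Finset (List Bool), U.card ≤ 2 ^ r.eval x.length ∧
        ∀ A' : Oracle, (∀ u ∈ U, A' u = A u) →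
          ∃ w : List Bool, w.length = 2 ^ q.eval x.length ∧
            M.out A' (pairBits w x) = some [true] := by
  obtain ⟨r, hr⟩ := exists_exp_bound M.p q
  refine ⟨r, ?_⟩
  rintro x A ⟨w, hw, h⟩
  obtain ⟨U, hU1, hU2⟩ := run_local M A (pairBits w x) (M.p.eval (pairBits w x).length) []
  refine ⟨U, hU1.trans ?_, fun A' hA' => ⟨w, hw, ?_⟩⟩
  · rw [length_pairBits, hw]
    exact hr x.length
  · have h2 : M.out A' (pairBits w x) = M.out A (pairBits w x) := hU2 A' hA'
    rw [h2, h]

open Classical in
theorem not_nullNE {f : ℕ → ℝ} (hf : ¬ Cond f) (O : Set Oracle)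
    (hO : ∀ A : Oracle, (∀ L, IsNEXP A L → IsBPP A L) → A ∈ O) : ¬ Null f O := by
  have h1 := CC.poly_countable
  obtain ⟨al, hal⟩ := exists_alg
  have h2 : Countable Alg := inferInstance
  have h3 : Nonempty (Alg × Polynomial ℕ) := ⟨(al 0, 0)⟩
  obtain ⟨g, hg⟩ := exists_surjective_nat (Alg × Polynomial ℕ)
  choose rd hrd using nexp_local
  obtain ⟨K, hK⟩ := exists_const hf
  set R : ℕ → Polynomial ℕ := fun e => (Polynomial.X + Polynomial.C (e + 1)) ^ K with hR
  have hRe : ∀ e n, (n + e + 1) ^ K ≤ (R e).eval n := by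
    intro e n
    rw [hR]
    simp only [Polynomial.eval_pow, Polynomial.eval_add, Polynomial.eval_X, Polynomial.eval_C]
    rw [add_assoc]
  obtain ⟨c, hc⟩ := hK R hRe
  obtain ⟨Φ, hΦ⟩ := exists_stageN R (fun e => rd (g e).1 (g e).2)
    (fun e x A => ∃ w : List Bool, w.length = 2 ^ (g e).2.eval x.length ∧
      (g e).1.out A (pairBits w x) = some [true])
    (fun e x A => hrd (g e).1 (g e).2 x A)
  refine not_null_of f Set.univ (by rw [measure_univ]; exact one_pos) Φ
    {y : List Bool | ∃ e z, y = code R e z} ?_ c hc O ?_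
  · intro B y hy
    exact (hΦ B).1 y fun e z h => hy ⟨e, z, h⟩
  · intro B _
    apply hO
    rintro L ⟨V, q, ⟨M, hM⟩, hV⟩
    obtain ⟨e, he⟩ := hg (M, q)
    have h4 := isBPP_of_code R (fun e => rd (g e).1 (g e).2) (Φ B) e
      {x | ∃ w : List Bool, w.length = 2 ^ (g e).2.eval x.length ∧
        (g e).1.out (Φ B) (pairBits w x) = some [true]} (fun x => (hΦ B).2 e x)
    have h5 : L = {x | ∃ w : List Bool, w.length = 2 ^ (g e).2.eval x.length ∧
        (g e).1.out (Φ B) (pairBits w x) = some [true]} := by
      ext x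
      rw [hV x, he]
      simp only [Set.mem_ofPred_eq, hM, Option.some.injEq]
    rw [h5]
    exact h4

end Pool.Agent.H620R2.Gauge
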