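import Pool.Agent.H620R2.GaugeX.NonNullX
import Pool.Agent.H620R2.Gauge2.CoverN
import Pool.Agent.H620R2.Gauge2.CoverE
import Pool.Agent.H620R2.Gauge2.V7

/-! Both directions for exponential time. -/

namespace Pool.Agent.H620R2.Gauge

open Pool.Agent.NPC

theorem keyX (f : ℕ → ℝ) (O : Set Oracle)
    (h1 : ∀ A : Oracle, (∀ L, IsEXP A L ∨ IsPSPACE A L → IsZPP A L) →
      (∃ L, IsZPP A L ∧ ¬ IsP A L) → A ∈ O)
    (h2 : ∀ A ∈ O, (∀ L, IsNP A L → WithAdvice (IsNP A) Lᶜ) ∨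
      (∀ L, IsEXP A L → WithAdvice (IsPSPACE A) L)) :
    Null f O ↔
      ∀ ε : ℝ, 0 < ε → ∃ᶠ N : ℕ in Filter.atTop, f N ≤ 2 ^ (Real.logb 2 N) ^ ε := by
  constructor
  · intro hn
    by_contra hcon
    exact not_nullT hcon O h1 hn
  · intro hf
    have hN : Null f {A : Oracle | WithAdvice (IsNP A) (hitLang A)ᶜ} :=
      nullN hf _ fun A hA => hA
    have hE : Null f {A : Oracle | WithAdvice (IsPSPACE A) (farLang A)} :=
      nullE hf _ fun A hA => hA
    refine (null_union hN hE).mono fun A hA => ?_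
    rcases h2 A hA with h | h
    · exact Or.inl (h _ (hitLang_np A))
    · exact Or.inr (h _ (farLang_exp A))

theorem keyNE (f : ℕ → ℝ) (O : Set Oracle)
    (h1 : ∀ A : Oracle, (∀ L, IsNEXP A L → IsBPP A L) → A ∈ O)
    (h2 : ∀ A ∈ O, ∀ L, IsNP A L → WithAdvice (IsNP A) Lᶜ) :
    Null f O ↔
      ∀ ε : ℝ, 0 < ε → ∃ᶠ N : ℕ in Filter.atTop, f N ≤ 2 ^ (Real.logb 2 N) ^ ε := by
  constructor
  · intro hn
    by_contra hcon
    exact not_nullNE hcon O h1 hn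
  · intro hf
    have hN : Null f {A : Oracle | WithAdvice (IsNP A) (hitLang A)ᶜ} :=
      nullN hf _ fun A hA => hA
    exact hN.mono fun A hA => h2 A hA _ (hitLang_np A)

theorem WithAdvice.compl_np {A : Oracle} {L : Set (List Bool)} (h : WithAdvice (IsP A) L) :
    WithAdvice (IsNP A) Lᶜ := by
  obtain ⟨L', h, p, hL', hh, hL⟩ := h
  refine ⟨L'ᶜ, h, p, hL'.compl.isNP, hh, fun x => ?_⟩
  rw [Set.mem_compl_iff, Set.mem_compl_iff, hL]

end Pool.Agent.H620R2.Gauge
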