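import Pool.Agent.H620R2.GaugeX.Base
import Pool.Agent.H620R2.Gauge.C

/-!
# Exact statements of the tasks X1 .. X13 (never import this file in a finished file)
-/

namespace Pool.Agent.H620R2.Gauge

open Pool.Agent.NPC Finset

/-- X1 -/
theorem run_local (M : Alg) (A : Oracle) (x : List Bool) (n : ℕ) (a : List Bool) :
    ∃ U : Finset (List Bool), U.card ≤ n ∧
      ∀ A' : Oracle, (∀ u ∈ U, A' u = A u) → M.run A' x n a = M.run A x n a := by
  sorry

/-- X1 -/
theorem exists_short (b : ℕ) : ∃ U : Finset (List Bool), U.card ≤ 2 ^ (b + 1) ∧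
    ∀ y : List Bool, y.length ≤ b → y ∈ U := by
  sorry

/-- X2 -/
theorem exists_key (p : ℕ → Polynomial ℕ) : ∃ key : ℕ × List Bool → ℕ, Function.Injective key ∧
    ∀ (t : ℕ × List Bool) (S : Finset (ℕ × List Bool)), (∀ s ∈ S, key s ≤ key t) →
      ∑ s ∈ S, 2 ^ (p s.1).eval s.2.length ≤ 2 ^ hl p t.1 t.2.length := by
  sorry

/-- X3 -/
theorem exists_stageE (R p : ℕ → Polynomial ℕ) (Q : ℕ → List Bool → Oracle → Prop)
    (hQ : ∀ (e : ℕ) (x : List Bool) (A : Oracle), ∃ U : Finset (List Bool),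
      U.card ≤ 2 ^ (p e).eval x.length ∧
      ∀ A' : Oracle, (∀ u ∈ U, A' u = A u) → (Q e x A' ↔ Q e x A)) :
    ∃ Φ : Oracle → Oracle, ∀ B,
      (∀ y, (∀ e z, y ≠ code R e z) → Φ B y = B y) ∧
      ∀ (e : ℕ) (x : List Bool) (b : Bool),
        (∀ w : List Bool, w.length = 2 * hl p e x.length →
          Φ B (code R e (b :: pairBits w x)) = true → (b = true ↔ Q e x (Φ B))) ∧
        ((b = true ↔ Q e x (Φ B)) → Nat.card {w : Fin (2 * hl p e x.length) → Bool //
          Φ B (code R e (b :: pairBits (List.ofFn w) x)) = false} ≤ 2 ^ hl p e x.length) := by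
  sorry

/-- X4 -/
theorem exists_stageN (R p : ℕ → Polynomial ℕ) (Q : ℕ → List Bool → Oracle → Prop)
    (hQ : ∀ (e : ℕ) (x : List Bool) (A : Oracle), Q e x A → ∃ U : Finset (List Bool),
      U.card ≤ 2 ^ (p e).eval x.length ∧
      ∀ A' : Oracle, (∀ u ∈ U, A' u = A u) → Q e x A') :
    ∃ Φ : Oracle → Oracle, ∀ B,
      (∀ y, (∀ e z, y ≠ code R e z) → Φ B y = B y) ∧
      ∀ (e : ℕ) (x : List Bool), Nat.card {w : Fin (2 * hl p e x.length) → Bool //
          ¬ (Φ B (code R e (true :: pairBits (List.ofFn w) x)) = true ↔ Q e x (Φ B))} ≤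
        2 ^ hl p e x.length := by
  sorry

open Classical in
/-- X5 -/
theorem exists_const {f : ℕ → ℝ} (hf : ¬ Cond f) : ∃ K : ℕ, ∀ R : ℕ → Polynomial ℕ,
    (∀ e n, (n + e + 1) ^ K ≤ (R e).eval n) → ∃ c : ℝ, ∀ N : ℕ,
      (((Finset.range N).filter (fun i => str i ∈ {y | ∃ e z, y = code R e z})).card : ℝ) ≤
        f N + c := by
  sorry

/-- X6 -/
theorem isZPP_of_code (R p : ℕ → Polynomial ℕ) (A : Oracle) (e : ℕ) (L : Set (List Bool))
    (h1 : ∀ (x : List Bool) (b : Bool) (w : List Bool), w.length = 2 * hl p e x.length →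
      A (code R e (b :: pairBits w x)) = true → (b = true ↔ x ∈ L))
    (h2 : ∀ (x : List Bool) (b : Bool), (b = true ↔ x ∈ L) →
      Nat.card {w : Fin (2 * hl p e x.length) → Bool //
        A (code R e (b :: pairBits (List.ofFn w) x)) = false} ≤ 2 ^ hl p e x.length) :
    IsZPP A L := by
  sorry

/-- X7 -/
theorem IsZPP.isNP {A : Oracle} {L : Set (List Bool)} (h : IsZPP A L) : IsNP A L := by
  sorry

/-- X8 -/
theorem pspace_task (M : SAlg) (p : Polynomial ℕ) : ∃ b : Polynomial ℕ,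
    ∀ (A : Oracle) (L : Set (List Bool)),
      (∀ x, (∀ s, M.Reach A x s → s.length ≤ p.eval x.length) ∧
        ∃ s z, M.Reach A x s ∧ M.act (pairBits x s) = true :: z ∧ (x ∈ L ↔ z = [true])) →
      ∀ x, x ∈ L ↔ CC.Acc M (CC.cut (b.eval x.length) A) x := by
  sorry

/-- X9 -/
theorem exists_diag (g : ℕ → Alg) : ∃ n : ℕ → ℕ, Function.Injective n ∧
    ∀ j, (g j).p.eval (n j) ≤ 2 ^ n j := by
  sorry

/-- X9 -/
theorem exists_exp_bound (P q : Polynomial ℕ) : ∃ r : Polynomial ℕ, ∀ n : ℕ,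
    P.eval (2 * 2 ^ q.eval n + 1 + n) ≤ 2 ^ r.eval n := by
  sorry

/-- X10 -/
theorem isBPP_of_code (R p : ℕ → Polynomial ℕ) (A : Oracle) (e : ℕ) (L : Set (List Bool))
    (h : ∀ x : List Bool, Nat.card {w : Fin (2 * hl p e x.length) → Bool //
      ¬ (A (code R e (true :: pairBits (List.ofFn w) x)) = true ↔ x ∈ L)} ≤
        2 ^ hl p e x.length) :
    IsBPP A L := by
  sorry

/-- X11 -/
theorem IsBPP.withAdvice {A : Oracle} {L : Set (List Bool)} (h : IsBPP A L) :
    WithAdvice (IsP A) L := by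
  sorry

/-- X12 -/
theorem IsNP.isNEXP {A : Oracle} {L : Set (List Bool)} (h : IsNP A L) : IsNEXP A L := by
  sorry

end Pool.Agent.H620R2.Gauge
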