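import Pool.Agent.H620R2.GaugeX.Base

/-!
# Task X1: the questions of a run; short strings
-/

namespace Pool.Agent.H620R2.Gauge

open Pool.Agent.NPC Finset

/-- X1 -/
theorem run_local (M : Alg) (A : Oracle) (x : List Bool) (n : ℕ) (a : List Bool) :
    ∃ U : Finset (List Bool), U.card ≤ n ∧
      ∀ A' : Oracle, (∀ u ∈ U, A' u = A u) → M.run A' x n a = M.run A x n a := by
  classical
  induction n generalizing a with
  | zero => exact ⟨∅, by simp, fun A' _ => rfl⟩
  | succ n ih =>
    rcases hq : M.D (pairBits x a) with _ | ⟨c, q⟩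
    · exact ⟨∅, by simp, fun A' _ => by simp only [Alg.run, hq]⟩
    · cases c with
      | true => exact ⟨∅, by simp, fun A' _ => by simp only [Alg.run, hq]⟩
      | false =>
        obtain ⟨Q, h1, h3⟩ := ih (a ++ [A q])
        refine ⟨insert q Q, (Finset.card_insert_le _ _).trans (by omega), ?_⟩
        intro A' hA'
        simp only [Alg.run, hq]
        rw [hA' q (Finset.mem_insert_self _ _)]
        exact h3 A' fun r hr => hA' r (Finset.mem_insert_of_mem hr)

/-- X1 -/
theorem exists_short (b : ℕ) : ∃ U : Finset (List Bool), U.card ≤ 2 ^ (b + 1) ∧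
    ∀ y : List Bool, y.length ≤ b → y ∈ U := by
  classical
  induction b with
  | zero =>
    refine ⟨{[]}, by simp, fun y hy => ?_⟩
    rw [Finset.mem_singleton]
    exact List.length_eq_zero_iff.1 (by omega)
  | succ b ih =>
    obtain ⟨U, hU, hU'⟩ := ih
    refine ⟨U ∪ (Finset.univ : Finset (Fin (b + 1) → Bool)).image List.ofFn, ?_, ?_⟩
    · refine (Finset.card_union_le _ _).trans ?_
      have h1 : ((Finset.univ : Finset (Fin (b + 1) → Bool)).image List.ofFn).card ≤ 2 ^ (b + 1) := by
        refine Finset.card_image_le.trans (le_of_eq ?_)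
        simp
      calc U.card + ((Finset.univ : Finset (Fin (b + 1) → Bool)).image List.ofFn).card
          ≤ 2 ^ (b + 1) + 2 ^ (b + 1) := Nat.add_le_add hU h1
        _ = 2 ^ (b + 1 + 1) := by ring
    · intro y hy
      rw [Finset.mem_union]
      by_cases h : y.length ≤ b
      · exact Or.inl (hU' y h)
      · right
        have hl : y.length = b + 1 := by omega
        rw [Finset.mem_image]
        refine ⟨fun i => y.get (Fin.cast hl.symm i), Finset.mem_univ _, ?_⟩
        apply List.ext_get
        · simp [hl]
        · intro n h1 h2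
          simp only [List.get_eq_getElem, List.getElem_ofFn, Fin.val_cast]

end Pool.Agent.H620R2.Gauge
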